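import Mathlib

/-!
# Components
-/

set_option autoImplicit false
set_option linter.unusedSectionVars false

namespace Pool.Agent.N28.DL

/-- quasisimple groups -/
def QSimple (T : Type) [Group T] : Prop :=
  (∃ t : T, t ≠ 1) ∧ commutator T = ⊤ ∧ ∀ N : Subgroup T, N.Normal → N = ⊤ ∨ N ≤ Subgroup.center T

section comm

variable {X : Type} [Group X]

lemma comm_mem_Z {x y : X} : x * y * x⁻¹ * y⁻¹ ∈ Subgroup.center X ↔
    QuotientGroup.mk' (Subgroup.center X) x * QuotientGroup.mk' (Subgroup.center X) y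
      = QuotientGroup.mk' (Subgroup.center X) y * QuotientGroup.mk' (Subgroup.center X) x := by
  rw [← QuotientGroup.eq_one_iff]
  change QuotientGroup.mk' (Subgroup.center X) (x * y * x⁻¹ * y⁻¹) = 1 ↔ _
  rw [map_mul, map_mul, map_mul, map_inv, map_inv, mul_inv_eq_one, mul_inv_eq_iff_eq_mul]

/-- commutators modulo the centre of a generated subgroup -/
lemma comm_closure {A : Set X} (h : ∀ a ∈ A, ∀ b ∈ A, a * b * a⁻¹ * b⁻¹ ∈ Subgroup.center X) :
    ∀ a ∈ Subgroup.closure A, ∀ b ∈ Subgroup.closure A,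
      a * b * a⁻¹ * b⁻¹ ∈ Subgroup.center X := by
  let π := QuotientGroup.mk' (Subgroup.center X)
  have h1 : Subgroup.closure A ≤ (Subgroup.centralizer (π '' A)).comap π := by
    rw [Subgroup.closure_le]
    intro a ha
    rw [SetLike.mem_coe, Subgroup.mem_comap, Subgroup.mem_centralizer_iff]
    rintro _ ⟨b, hb, rfl⟩
    exact comm_mem_Z.mp (h b hb a ha)
  have h2 : Subgroup.closure A ≤ (Subgroup.centralizer (π '' Subgroup.closure A)).comap π := by
    rw [Subgroup.closure_le]
    intro a ha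
    rw [SetLike.mem_coe, Subgroup.mem_comap, Subgroup.mem_centralizer_iff]
    rintro _ ⟨b, hb, rfl⟩
    have h3 := h1 hb
    rw [Subgroup.mem_comap, Subgroup.mem_centralizer_iff] at h3
    exact (h3 _ ⟨a, ha, rfl⟩).symm
  intro a ha b hb
  rw [comm_mem_Z]
  have h3 := h2 hb
  rw [Subgroup.mem_comap, Subgroup.mem_centralizer_iff] at h3
  exact h3 _ ⟨a, ha, rfl⟩

/-- commutators of products with central elements -/
lemma comm_sup {R : Subgroup X} :
    ⁅R ⊔ Subgroup.center X, R ⊔ Subgroup.center X⁆ ≤ ⁅R, R⁆ := by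
  rw [Subgroup.commutator_le]
  intro a ha b hb
  obtain ⟨r, hr, z, hz, rfl⟩ := Subgroup.mem_sup_of_normal_right.mp ha
  obtain ⟨r', hr', z', hz', rfl⟩ := Subgroup.mem_sup_of_normal_right.mp hb
  have e1 := Subgroup.mem_center_iff.mp hz
  have e2 := Subgroup.mem_center_iff.mp hz'
  rw [commutatorElement_def]
  have h1 : r * z * (r' * z') * (r * z)⁻¹ * (r' * z')⁻¹ = r * r' * r⁻¹ * r'⁻¹ := by
    rw [mul_inv_rev, mul_inv_rev]
    have f1 : r * z * (r' * z') = r * r' * z * z' := by
      rw [mul_assoc, ← mul_assoc z, ← e1 r']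
      group
    have f2 : z * z' * (z⁻¹ * r⁻¹) = z' * r⁻¹ := by
      rw [e2 z]
      group
    calc r * z * (r' * z') * (z⁻¹ * r⁻¹) * (z'⁻¹ * r'⁻¹)
        = r * r' * z * z' * (z⁻¹ * r⁻¹) * (z'⁻¹ * r'⁻¹) := by rw [f1]
      _ = r * r' * (z * z' * (z⁻¹ * r⁻¹)) * (z'⁻¹ * r'⁻¹) := by group
      _ = r * r' * (z' * r⁻¹) * (z'⁻¹ * r'⁻¹) := by rw [f2]
      _ = r * r' * (r⁻¹ * z') * (z'⁻¹ * r'⁻¹) := by rw [e2]
      _ = _ := by group
  rw [h1]
  have h2 := Subgroup.commutator_mem_commutator hr hr'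
  rwa [commutatorElement_def] at h2

end comm

/-- **Components.** A minimal noncentral normal subgroup whose image modulo the centre is not
abelian contains a quasisimple group. -/
theorem exists_comp {X : Type} [Group X] [Finite X] {F : Subgroup X} (hFn : F.Normal)
    (hZF : Subgroup.center X ≤ F)
    (hmin : ∀ M : Subgroup X, M.Normal → Subgroup.center X ≤ M → M ≤ F →
      M = Subgroup.center X ∨ M = F)
    (hnc : ¬ ∀ x ∈ F, ∀ y ∈ F, x * y * x⁻¹ * y⁻¹ ∈ Subgroup.center X) :
    ∃ T : Subgroup X, T ≤ F ∧ ⁅T, T⁆ = T ∧ QSimple T := by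
  classical
  let Z := Subgroup.center X
  -- a minimal normal subgroup of `F` above `Z`
  let P : Set (Subgroup X) := {S | Z < S ∧ S ≤ F ∧ ∀ f ∈ F, ∀ s ∈ S, f * s * f⁻¹ ∈ S}
  have hFP : F ∈ P := by
    refine ⟨lt_of_le_of_ne hZF ?_, le_rfl, fun f _ s hs => hFn.conj_mem s hs f⟩
    intro h
    apply hnc
    intro x hx y hy
    rw [← h] at hx
    have h1 := Subgroup.mem_center_iff.mp hx y
    rw [← h1]
    have h2 : y * x * x⁻¹ * y⁻¹ = 1 := by group
    rw [h2]
    exact one_mem _
  obtain ⟨S, hSP, hSmin⟩ := (Set.toFinite P).exists_minimal ⟨F, hFP⟩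
  obtain ⟨hZS, hSF, hSn⟩ := hSP
  have hSm : ∀ M : Subgroup X, Z ≤ M → M ≤ S → (∀ f ∈ F, ∀ s ∈ M, f * s * f⁻¹ ∈ M) →
      M = Z ∨ M = S := by
    intro M h1 h2 h3
    by_cases h : M = Z
    · exact Or.inl h
    · right
      have h4 : M ∈ P := ⟨lt_of_le_of_ne h1 (Ne.symm h), h2.trans hSF, h3⟩
      exact le_antisymm h2 (hSmin h4 h2)
  -- the conjugates
  let c : X → Subgroup X := fun x => S.map (MulAut.conj x).toMonoidHom
  have hcmem : ∀ x y, y ∈ c x ↔ x⁻¹ * y * x ∈ S := by
    intro x y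
    constructor
    · rintro ⟨s, hs, rfl⟩
      change x⁻¹ * (x * s * x⁻¹) * x ∈ S
      have : x⁻¹ * (x * s * x⁻¹) * x = s := by group
      rw [this]
      exact hs
    · intro h
      refine ⟨_, h, ?_⟩
      change x * (x⁻¹ * y * x) * x⁻¹ = y
      group
  have hcF : ∀ x, c x ≤ F := by
    rintro x _ ⟨s, hs, rfl⟩
    exact hFn.conj_mem s (hSF hs) x
  have hcn : ∀ x, ∀ f ∈ F, ∀ s ∈ c x, f * s * f⁻¹ ∈ c x := by
    intro x f hf s hs
    rw [hcmem] at hs ⊢
    have h1 : x⁻¹ * f * x ∈ F := by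
      have := hFn.conj_mem f hf x⁻¹
      rwa [inv_inv] at this
    have h2 := hSn _ h1 _ hs
    have h3 : x⁻¹ * f * x * (x⁻¹ * s * x) * (x⁻¹ * f * x)⁻¹ = x⁻¹ * (f * s * f⁻¹) * x := by group
    rwa [h3] at h2
  have hccard : ∀ x, Nat.card (c x) = Nat.card S := by
    intro x
    exact (Nat.card_congr (S.equivMapOfInjective _ (MulAut.conj x).injective).toEquiv).symm
  -- distinct conjugates commute modulo the centre
  have hdist : ∀ x, c x ≠ S → ∀ g ∈ c x, ∀ s ∈ S, g * s * g⁻¹ * s⁻¹ ∈ Z := by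
    intro x hx g hg s hs
    have h1 : S ⊓ c x = Z := by
      rcases hSm (S ⊓ c x) (le_inf hZS.le (by
        intro z hz
        rw [hcmem]
        have h2 := Subgroup.mem_center_iff.mp hz x⁻¹
        rw [h2]
        have h3 : z * x⁻¹ * x = z := by group
        rw [h3]
        exact hZS.le hz)) inf_le_left (fun f hf s hs => ⟨hSn f hf s hs.1, hcn x f hf s hs.2⟩)
        with h | h
      · exact h
      · exfalso
        apply hx
        have h2 : S ≤ c x := by
          rw [← h]
          exact inf_le_right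
        exact (Subgroup.eq_of_le_of_card_ge h2 (by rw [hccard])).symm
    change _ ∈ Z
    rw [← h1]
    refine ⟨S.mul_mem (hSn g (hcF x hg) s hs) (S.inv_mem hs), ?_⟩
    have h2 : g * s * g⁻¹ * s⁻¹ = g * (s * g⁻¹ * s⁻¹) := by group
    rw [h2]
    exact (c x).mul_mem hg (hcn x s (hSF hs) _ ((c x).inv_mem hg))
  -- the conjugates generate
  have hgen : F = Subgroup.closure (Group.conjugatesOfSet (S : Set X)) := by
    have h1 : Subgroup.normalClosure (S : Set X) ≤ F :=
      Subgroup.normalClosure_le_normal hSF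
    have h2 : S ≤ Subgroup.normalClosure (S : Set X) := Subgroup.subset_normalClosure
    rcases hmin (Subgroup.normalClosure (S : Set X)) inferInstance (hZS.le.trans h2) h1 with h | h
    · exfalso
      rw [h] at h2
      exact hZS.not_ge h2
    · exact h.symm
  have hconj : ∀ g ∈ Group.conjugatesOfSet (S : Set X), ∃ x, g ∈ c x := by
    intro g hg
    obtain ⟨a, ha, hag⟩ := Group.mem_conjugatesOfSet_iff.mp hg
    obtain ⟨x, hx⟩ := isConj_iff.mp hag
    exact ⟨x, a, ha, hx⟩
  -- `S` is not abelian modulo the centre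
  have hSna : ¬ ∀ a ∈ S, ∀ b ∈ S, a * b * a⁻¹ * b⁻¹ ∈ Z := by
    intro hS
    apply hnc
    have hcx : ∀ x, ∀ a ∈ c x, ∀ b ∈ S, a * b * a⁻¹ * b⁻¹ ∈ Z := by
      intro x a ha b hb
      by_cases h : c x = S
      · rw [h] at ha
        exact hS a ha b hb
      · exact hdist x h a ha b hb
    rw [hgen]
    refine comm_closure ?_
    intro a ha b hb
    obtain ⟨x, hx⟩ := hconj a ha
    obtain ⟨y, hy⟩ := hconj b hb
    have h1 : y⁻¹ * b * y ∈ S := (hcmem y b).mp hy
    have h2 : y⁻¹ * a * y ∈ c (y⁻¹ * x) := by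
      rw [hcmem]
      have h3 : (y⁻¹ * x)⁻¹ * (y⁻¹ * a * y) * (y⁻¹ * x) = x⁻¹ * a * x := by group
      rw [h3]
      exact (hcmem x a).mp hx
    have h3 := hcx _ _ h2 _ h1
    have h4 : y⁻¹ * a * y * (y⁻¹ * b * y) * (y⁻¹ * a * y)⁻¹ * (y⁻¹ * b * y)⁻¹
        = y⁻¹ * (a * b * a⁻¹ * b⁻¹) * y := by group
    rw [h4] at h3
    have h5 := (inferInstance : (Subgroup.center X).Normal).conj_mem _ h3 y
    have h6 : y * (y⁻¹ * (a * b * a⁻¹ * b⁻¹) * y) * y⁻¹ = a * b * a⁻¹ * b⁻¹ := by group
    rwa [h6] at h5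
  let T : Subgroup X := ⁅S, S⁆
  have hTS : T ≤ S := Subgroup.commutator_le_self S
  have hTn : ∀ f ∈ F, ∀ t ∈ T, f * t * f⁻¹ ∈ T := by
    intro f hf t ht
    have h1 : S.map (MulAut.conj f).toMonoidHom ≤ S := by
      rintro _ ⟨s, hs, rfl⟩
      exact hSn f hf s hs
    have h2 : T.map (MulAut.conj f).toMonoidHom ≤ T := by
      rw [Subgroup.map_commutator]
      exact Subgroup.commutator_mono h1 h1
    exact h2 ⟨t, ht, rfl⟩
  have hTZ : T ⊔ Z = S := by
    rcases hSm (T ⊔ Z) le_sup_right (sup_le hTS hZS.le) (by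
      intro f hf s hs
      obtain ⟨t, ht, z, hz, rfl⟩ := Subgroup.mem_sup_of_normal_right.mp hs
      have h1 : f * (t * z) * f⁻¹ = (f * t * f⁻¹) * (f * z * f⁻¹) := by group
      rw [h1]
      exact Subgroup.mul_mem_sup (hTn f hf t ht)
        ((inferInstance : (Subgroup.center X).Normal).conj_mem z hz f)) with h | h
    · exfalso
      apply hSna
      intro a ha b hb
      have h1 := Subgroup.commutator_mem_commutator ha hb
      rw [commutatorElement_def] at h1
      have h2 : T ≤ Z := by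
        rw [← h]
        exact le_sup_left
      exact h2 h1
    · exact h
  have hTT : ⁅T, T⁆ = T := by
    apply le_antisymm (Subgroup.commutator_le_self T)
    have h1 := comm_sup (R := T)
    change ⁅T ⊔ Z, T ⊔ Z⁆ ≤ _ at h1
    rw [hTZ] at h1
    exact h1
  -- the normal subgroups of `T`
  have hTs : ∀ R : Subgroup X, R ≤ T → (∀ t ∈ T, ∀ r ∈ R, t * r * t⁻¹ ∈ R) → R = T ∨ R ≤ Z := by
    intro R hRT hRn
    have hn : F ≤ Subgroup.normalizer ((R ⊔ Z : Subgroup X) : Set X) := by
      rw [hgen, Subgroup.closure_le]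
      intro g hg
      obtain ⟨x, hx⟩ := hconj g hg
      -- one inclusion for the elements of the conjugates
      have key : ∀ g ∈ c x, ∀ w ∈ R ⊔ Z, g * w * g⁻¹ ∈ R ⊔ Z := by
        intro g hx w hw
        obtain ⟨r, hr, z, hz, rfl⟩ := Subgroup.mem_sup_of_normal_right.mp hw
        have h1 : g * (r * z) * g⁻¹ = (g * r * g⁻¹) * (g * z * g⁻¹) := by group
        rw [h1]
        refine (R ⊔ Z).mul_mem ?_ (Subgroup.mem_sup_right
          ((inferInstance : (Subgroup.center X).Normal).conj_mem z hz g))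
        by_cases h : c x = S
        · rw [h, ← hTZ] at hx
          obtain ⟨t, ht, z', hz', rfl⟩ := Subgroup.mem_sup_of_normal_right.mp hx
          have h2 : t * z' * r * (t * z')⁻¹ = t * r * t⁻¹ := by
            have h3 := Subgroup.mem_center_iff.mp hz' r
            rw [mul_inv_rev, mul_assoc t, ← h3]
            group
          rw [h2]
          exact Subgroup.mem_sup_left (hRn t ht r hr)
        · have h2 := hdist x h g hx r (hTS (hRT hr))
          have h3 : g * r * g⁻¹ = g * r * g⁻¹ * r⁻¹ * r := by group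
          rw [h3]
          exact (R ⊔ Z).mul_mem (Subgroup.mem_sup_right h2) (Subgroup.mem_sup_left hr)
      rw [SetLike.mem_coe, Subgroup.mem_normalizer_iff]
      intro w
      refine ⟨key g hx w, fun h => ?_⟩
      have h1 := key g⁻¹ ((c x).inv_mem hx) _ h
      have h2 : g⁻¹ * (g * w * g⁻¹) * g⁻¹⁻¹ = w := by group
      rwa [h2] at h1
    rcases hSm (R ⊔ Z) le_sup_right (sup_le (hRT.trans hTS) hZS.le) (fun f hf s hs =>
      (Subgroup.mem_normalizer_iff.mp (hn hf) s).mp hs) with h | h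
    · right
      rw [← h]
      exact le_sup_left
    · left
      apply le_antisymm hRT
      have h1 := comm_sup (R := R)
      change ⁅R ⊔ Z, R ⊔ Z⁆ ≤ _ at h1
      rw [h] at h1
      exact h1.trans (Subgroup.commutator_le_self R)
  refine ⟨T, hTS.trans hSF, hTT, ?_, ?_, ?_⟩
  · by_contra hcon
    push Not at hcon
    apply hSna
    intro a ha b hb
    have h1 := Subgroup.commutator_mem_commutator ha hb
    rw [commutatorElement_def] at h1
    have h2 := congrArg Subtype.val (hcon ⟨_, h1⟩)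
    change a * b * a⁻¹ * b⁻¹ = 1 at h2
    rw [h2]
    exact one_mem _
  · rw [eq_top_iff]
    intro t _
    have h1 : (commutator T).map T.subtype = ⁅T, T⁆ := Subgroup.map_subtype_commutator T
    have h2 : (t : X) ∈ (commutator T).map T.subtype := by
      rw [h1, hTT]
      exact t.2
    obtain ⟨t', ht', htt⟩ := h2
    have h3 : t' = t := Subtype.ext htt
    rwa [← h3]
  · intro N hN
    rcases hTs (N.map T.subtype) (by
      rintro _ ⟨t, -, rfl⟩
      exact t.2) (by
      rintro t ht _ ⟨r, hr, rfl⟩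
      exact ⟨_, hN.conj_mem r hr ⟨t, ht⟩, rfl⟩) with h | h
    · left
      rw [eq_top_iff]
      intro t _
      have h1 : (t : X) ∈ N.map T.subtype := by
        rw [h]
        exact t.2
      obtain ⟨t', ht', htt⟩ := h1
      have h3 : t' = t := Subtype.ext htt
      rwa [← h3]
    · right
      intro t ht
      rw [Subgroup.mem_center_iff]
      intro g
      apply Subtype.ext
      have h1 : (t : X) ∈ Subgroup.center X := h ⟨t, ht, rfl⟩
      exact Subgroup.mem_center_iff.mp h1 g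

end Pool.Agent.N28.DL
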