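import Mathlib
import Pool.Agent.N28.DL.MainChain
import Pool.Agent.TH820.KerA

/-!
# Characters of groups without new zeros in primitive sections
-/

set_option autoImplicit false
set_option linter.unusedSectionVars false

namespace Pool.Agent.N28.DL

open Pool.Agent.H302R2 Pool.Agent.H302R3 Pool.Agent.H541R3.ART Pool.Agent.W446.AS Pool.Agent.R389
  Pool.Agent.H302R5 Pool.Agent.H302R6

/-- the group `X` has a faithful primitive irreducible representation which is not
one-dimensional -/
def Prim (X : Type) [Group X] : Prop :=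
  ∃ ψ ∈ Irr X, ψ 1 ≠ 1 ∧ (∀ x, ψ x = ψ 1 → x = 1) ∧
    ∀ (U : Subgroup X) (φ : U → ℂ), U ≠ ⊤ → φ ∈ Irr U → ψ ≠ ind U φ

/-- For every primitive section `X` of `G` the part of `θ` in `X` is invariant under a nontrivial
normal subgroup `Y` of `X`. -/
def OldSec {G : Type} [Group G] (θ : G → ℂ) : Prop :=
  ∀ (H : Subgroup G) (X : Type) [Group X] [Finite X] (q : H →* X), Function.Surjective q →
    Prim X → ∃ Y : Subgroup X, Y.Normal ∧ Y ≠ ⊥ ∧ ∀ h b : H, q b ∈ Y →
      inv q.ker (fun x : H => θ x) (h * b) = inv q.ker (fun x : H => θ x) h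

lemma inv_equiv {A B : Type} [Group A] [Group B] (e : A ≃* B) (K : Subgroup B) (f : B → ℂ)
    (a : A) : inv (K.comap e.toMonoidHom) (fun x => f (e x)) a = inv K f (e a) := by
  have h : ∀ k : K.comap e.toMonoidHom, e k ∈ K := fun k => k.2
  let i : K.comap e.toMonoidHom ≃ K :=
    { toFun := fun k => ⟨e k, k.2⟩
      invFun := fun k => ⟨e.symm k, by
        change e (e.symm (k : B)) ∈ K
        rw [e.apply_symm_apply]
        exact k.2⟩
      left_inv := by
        intro k
        apply Subtype.ext
        simp
      right_inv := by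
        intro k
        apply Subtype.ext
        simp }
  rw [inv, inv, Nat.card_congr i]
  congr 1
  refine finsum_eq_of_bijective i i.bijective fun k => ?_
  change f (e (a * k)) = f (e a * e k)
  rw [map_mul]

lemma OldSec.sub {G : Type} [Group G] {θ : G → ℂ} (h : OldSec θ) (U : Subgroup G) :
    OldSec (fun x : U => θ x) := by
  intro H X _ _ q hq hX
  let e : H.map U.subtype ≃* H := (H.equivMapOfInjective U.subtype U.subtype_injective).symm
  have he : ∀ x : H, e ⟨((x : U) : G), ⟨x, x.2, rfl⟩⟩ = x := by
    intro x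
    rw [MulEquiv.symm_apply_eq]
    rfl
  have he' : ∀ x : H.map U.subtype, (((e x : H) : U) : G) = x := by
    rintro ⟨_, k, hk, rfl⟩
    have := he ⟨k, hk⟩
    change (((e ⟨((k : U) : G), _⟩ : H) : U) : G) = k
    rw [this]
  obtain ⟨Y, h1, h2, h3⟩ := h (H.map U.subtype) X (q.comp e.toMonoidHom)
    (hq.comp e.surjective) hX
  refine ⟨Y, h1, h2, fun a b hb => ?_⟩
  have hf : (fun x : H.map U.subtype => θ x) = fun x => (fun y : H => θ ((y : U) : G)) (e x) := by
    funext x
    change θ x = θ (((e x : H) : U) : G)
    rw [he']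
  have hk : (q.comp e.toMonoidHom).ker = q.ker.comap e.toMonoidHom := rfl
  have h4 := h3 (e.symm a) (e.symm b) (by
    change q (e (e.symm b)) ∈ Y
    rw [e.apply_symm_apply]
    exact hb)
  rw [hk, hf, ← map_mul] at h4
  have h5 := inv_equiv e q.ker (fun y : H => θ ((y : U) : G)) (e.symm (a * b))
  have h6 := inv_equiv e q.ker (fun y : H => θ ((y : U) : G)) (e.symm a)
  rw [e.apply_symm_apply] at h5 h6
  exact h5.symm.trans (h4.trans h6)

variable {G : Type} [Group G] [Finite G] {θ : G → ℂ}

lemma push_inv [Fintype G] {X : Type} [Group X] [Finite X] (π : G →* X) (g : G) :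
    push π θ (π g) = inv π.ker θ g := by
  classical
  have : Fintype π.ker := Fintype.ofFinite _
  rw [push_apply, inv_eq]

/-- characters which are nontrivial on a normal subgroup under which `θ` is invariant -/
theorem inv_good [Fintype G] {X : Type} [Group X] [Finite X] {π : G →* X}
    (hπ : Function.Surjective π) {η : X → ℂ} (hη : η ∈ Irr X) {Y : Subgroup X} (hYn : Y.Normal)
    (hYη : ∃ y ∈ Y, η y ≠ η 1) (hA : HA θ) (e2 : ∀ x, ∀ y ∈ Y, push π θ (x * y) = push π θ x) :
    (fun g => η (π g)) ∈ GoodA θ := by
  classical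
  have : Fintype X := Fintype.ofFinite X
  have hHp := push_isHeilbronn hπ (heil_of hA)
  have hinvp : part Y 1 (push π θ) = push π θ := by
    rw [part_one]
    exact inv_of_const Y e2
  have h1 : η ∈ NewA Y := by
    refine relative_brauer Y (AddSubgroup.subset_closure hη) ?_
    rcases irr_inv Y hη with h | h
    · exfalso
      obtain ⟨y, hy, hne⟩ := hYη
      apply hne
      have := h 1 y hy
      rwa [one_mul] at this
    · exact h.2
  let m : (X → ℂ) →+ (G → ℂ) := AddMonoidHom.mk' (fun u g => u (π g)) (fun a b => rfl)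
  have h2 : NewA Y ≤ (GoodA θ).comap m := by
    rw [NewA, AddSubgroup.closure_le]
    rintro f ⟨V, ψ, -, ⟨v, hv, hne⟩, rfl⟩
    rw [SetLike.mem_coe, AddSubgroup.mem_comap]
    change (fun g => ind V _ (π g)) ∈ GoodA θ
    refine AddSubgroup.subset_closure ⟨V.comap π, ψ.comp
      { toFun := fun h : V.comap π => ⟨π h, h.2⟩
        map_one' := by apply Subtype.ext; simp
        map_mul' := by intro a b; apply Subtype.ext; simp }, ind_comap hπ V _, ?_⟩
    rw [← pr_push hπ, frob' V _ hHp.conj]
    have h3 : sm V ψ (part Y 1 (push π θ)) = 0 := sm_zero_of 1 ψ (x₀ := v) hv (by simpa using hne)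
    rw [hinvp, sm_pr] at h3
    exact (mul_eq_zero.mp h3).resolve_left card_ne
  exact h2 h1

/-- linear characters are monomial -/
lemma mono_lin {χ : G → ℂ} (lam : G →* ℂˣ)
    (h : χ = fun g => ((lam g : ℂˣ) : ℂ)) : R389.Mono χ := by
  classical
  have : Fintype G := Fintype.ofFinite G
  refine ⟨⊤, lam.comp (⊤ : Subgroup G).subtype, ?_⟩
  funext g
  rw [ind_eq, Subgroup.card_top]
  have h1 : ∀ x : G, ext (⊤ : Subgroup G) (fun h : (⊤ : Subgroup G) =>
      (((lam.comp (⊤ : Subgroup G).subtype) h : ℂˣ) : ℂ)) (x⁻¹ * g * x) = ((lam g : ℂˣ) : ℂ) := by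
    intro x
    rw [ext_mem _ _ (Subgroup.mem_top _)]
    change ((lam (x⁻¹ * g * x) : ℂˣ) : ℂ) = _
    rw [map_mul, map_mul, map_inv, mul_comm, mul_inv_cancel_left]
  rw [Finset.sum_congr rfl (fun x _ => h1 x), Finset.sum_const, Finset.card_univ, nsmul_eq_mul,
    ← Nat.card_eq_fintype_card, ← mul_assoc, inv_mul_cancel₀ card_ne, one_mul, h]

/-- **Characters of groups without new zeros in primitive sections.** -/
theorem gtN : ∀ (n : ℕ) (G : Type) [Group G] [Finite G], Nat.card G = n →
    ∀ θ : G → ℂ, HA θ → OldSec θ → ∀ χ ∈ Irr G, R389.Mono χ ∨ χ ∈ GoodA θ := by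
  intro n
  induction n using Nat.strong_induction_on with
  | _ n ih =>
    intro G _ _ hn θ hA hO χ hχ
    classical
    have : Fintype G := Fintype.ofFinite G
    obtain ⟨m, ρ, hρ, rfl⟩ := exists_rep hχ
    let π : G →* G ⧸ ρ.ker := QuotientGroup.mk' _
    have hπ : Function.Surjective π := QuotientGroup.mk'_surjective _
    let σ : Representation ℂ (G ⧸ ρ.ker) (Fin m → ℂ) := QuotientGroup.lift ρ.ker ρ (fun g hg => hg)
    have hσρ : ∀ g, σ (π g) = ρ g := fun g => rfl
    have hf : ∀ x, σ x = 1 → x = 1 := by
      intro x hx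
      obtain ⟨g, rfl⟩ := hπ x
      exact (QuotientGroup.eq_one_iff g).mpr hx
    have hσ : Irred σ := ⟨hρ.1, fun W hW => hρ.2 W fun g v hv => by
      rw [← hσρ]; exact hW (π g) v hv⟩
    have hψ := irr_of_irred hσ
    have hχψ : ρ.character = fun g => σ.character (π g) := rfl
    by_cases hprim : ∀ (U : Subgroup (G ⧸ ρ.ker)) (φ : U → ℂ), U ≠ ⊤ → φ ∈ Irr U →
      σ.character ≠ ind U φ
    swap
    · -- induced from a proper subgroup
      push Not at hprim
      obtain ⟨H, φ, hH, hφ, hφ1⟩ := hprim
      let H' : Subgroup G := H.comap π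
      let π' : H' →* H :=
        { toFun := fun h => ⟨π h, h.2⟩
          map_one' := by apply Subtype.ext; simp
          map_mul' := by intro a b; apply Subtype.ext; simp }
      have hπ' : Function.Surjective π' := by
        rintro ⟨y, hy⟩
        obtain ⟨g, rfl⟩ := hπ y
        exact ⟨⟨g, hy⟩, rfl⟩
      have hχ1 : ρ.character = ind H' (fun h => φ (π' h)) := by
        rw [hχψ, hφ1]
        exact ind_comap hπ H φ
      have hlt : Nat.card H' < n := by
        rw [← hn]
        rcases lt_or_eq_of_le (Nat.le_of_dvd Nat.card_pos H'.card_subgroup_dvd_card) with h | h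
        · exact h
        · exfalso
          apply hH
          have h1 := Subgroup.eq_top_of_card_eq H' h
          rw [eq_top_iff]
          intro y _
          obtain ⟨g, rfl⟩ := hπ y
          have : g ∈ H' := by rw [h1]; exact Subgroup.mem_top g
          exact this
      rcases ih _ hlt H' rfl (fun x => θ x) (hA.res H') (hO.sub H') _ (irr_comp hπ' hφ) with h | h
      · left
        rw [hχ1]
        exact h.ind
      · right
        rw [hχ1]
        exact goodA_ind hA.conj H' h
    · by_cases hX : σ.character 1 = 1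
      · left
        rw [hχψ]
        obtain ⟨lam, hlam⟩ := irr_deg_one hψ hX
        have h1 : σ.character = fun g => ((lam g : ℂˣ) : ℂ) := funext hlam
        exact (mono_lin lam h1).comp hπ
      · right
        let e : (⊤ : Subgroup G) ≃* G := Subgroup.topEquiv
        let q : (⊤ : Subgroup G) →* G ⧸ ρ.ker := π.comp e.toMonoidHom
        have hq : Function.Surjective q := hπ.comp e.surjective
        obtain ⟨Y, hYn, hY0, hY⟩ := hO ⊤ _ q hq ⟨σ.character, hψ, hX, fun x hx =>
          hf x (Pool.Agent.TH820.rep_ker σ hσ hx), hprim⟩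
        have hk : q.ker = π.ker.comap e.toMonoidHom := rfl
        have e2 : ∀ x, ∀ y ∈ Y, push π θ (x * y) = push π θ x := by
          intro x y hy
          obtain ⟨g, rfl⟩ := hπ x
          obtain ⟨b, rfl⟩ := hπ y
          have h1 := hY (e.symm g) (e.symm b) (by
            change π (e (e.symm b)) ∈ Y
            rw [e.apply_symm_apply]
            exact hy)
          have hf' : (fun x : (⊤ : Subgroup G) => θ x) = fun x => θ (e x) := rfl
          rw [hk, hf', ← map_mul] at h1
          have h5 := inv_equiv e π.ker θ (e.symm (g * b))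
          have h6 := inv_equiv e π.ker θ (e.symm g)
          rw [e.apply_symm_apply] at h5 h6
          rw [← map_mul, push_inv, push_inv]
          exact h5.symm.trans (h1.trans h6)
        rw [hχψ]
        refine inv_good hπ hψ hYn ?_ hA e2
        by_contra hcon
        push Not at hcon
        apply hY0
        have hYf : Fintype Y := Fintype.ofFinite _
        rw [eq_bot_iff]
        intro y hy
        rw [Subgroup.mem_bot]
        rcases hσ.normal_dich Y with h6 | h6
        · exact hf y (h6 y hy)
        · exfalso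
          have h7 := h6 1
          have h8 : ∀ x : Y, σ.character (1 * x) = σ.character 1 := by
            intro x
            rw [one_mul]
            exact hcon x x.2
          rw [Finset.sum_congr rfl (fun x _ => h8 x), Finset.sum_const, nsmul_eq_mul,
            Finset.card_univ] at h7
          have h9 : (Fintype.card Y : ℂ) ≠ 0 := by
            rw [← Nat.card_eq_fintype_card]
            exact card_ne
          rcases mul_eq_zero.mp h7 with h10 | h10
          · exact h9 h10
          · obtain ⟨d, hd, h11⟩ := irr_deg_pos hψ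
            rw [h10] at h11
            norm_cast at h11
            omega

/-- a Heilbronn function with the same multiplicity at the trivial character and the degree is
invariant -/
lemma inv_of_deg {X : Type} [Group X] [Finite X] {η : X → ℂ} (hη : IsHeilbronn η) (Y : Subgroup X)
    [Y.Normal] (h : inv Y η 1 = η 1) : ∀ x, ∀ y ∈ Y, η (x * y) = η x := by
  classical
  have : Fintype Y := Fintype.ofFinite Y
  obtain ⟨d, hd⟩ := hη.exists_deg
  have hn : ∀ y : Y, (η y).re ≤ (η 1).re := by
    intro y
    have h1 := hη.norm_le (y : X)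
    exact (Complex.re_le_norm _).trans h1
  have h1 : ∑ y : Y, η (y : X) = Nat.card Y * η 1 := by
    rw [inv_eq] at h
    have h2 : (Nat.card Y : ℂ) ≠ 0 := card_ne
    rw [← h, ← mul_assoc, mul_inv_cancel₀ h2, one_mul]
    exact Finset.sum_congr rfl fun y _ => by rw [one_mul]
  have h2 : ∑ y : Y, ((η 1).re - (η (y : X)).re) = 0 := by
    rw [Finset.sum_sub_distrib, Finset.sum_const, Finset.card_univ, nsmul_eq_mul,
      ← Nat.card_eq_fintype_card, ← Complex.re_sum, h1, hd]
    simp
  have h3 : ∀ y : Y, (η y).re = (η 1).re := by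
    intro y
    have h4 := (Finset.sum_eq_zero_iff_of_nonneg (fun y _ => sub_nonneg.mpr (hn y))).mp h2 y
      (Finset.mem_univ _)
    linarith
  have h4 : ∀ y ∈ Y, η y = η 1 := by
    intro y hy
    have h5 := h3 ⟨y, hy⟩
    have h6 := hη.norm_le y
    have h7 : ‖η y‖ ≤ (η y).re := by
      change _ ≤ (η (⟨y, hy⟩ : Y)).re
      rw [h5]
      exact h6
    have h8 : (η y).im = 0 := by
      have h9 := Complex.sq_norm (η y)
      rw [Complex.normSq_apply] at h9
      have h10 := norm_nonneg (η y)
      nlinarith
    apply Complex.ext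
    · exact h5
    · rw [h8, hd]
      simp
  intro x y hy
  have h5 := Pool.Agent.TH820.const_of_kernel hη Y h4 (x * y * x⁻¹)
    ((inferInstance : Y.Normal).conj_mem y hy x) x
  rwa [inv_mul_cancel_right] at h5

end Pool.Agent.N28.DL
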