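import Mathlib

/-!
# Embeddings and powers of roots of unity
-/

set_option autoImplicit false
set_option linter.unusedSectionVars false

namespace Pool.Agent.N28.DL

open Polynomial IntermediateField

/-- `J` contains `d` exponents prime to `p` with distinct residues modulo `q` -/
def ResQ (J : Set ℕ) (p q d : ℕ) : Prop :=
  ∃ T : Finset ℕ, d ≤ T.card ∧ (∀ j ∈ T, j ∈ J ∧ ¬ p ∣ j) ∧
    ∀ j ∈ T, ∀ j' ∈ T, j % q = j' % q → j = j'

/-- the exponents which are realised by embeddings with the same restriction to `F` -/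
def JSet (F : Type) [Field F] {E : Type} [Field E] [Algebra F E] (τ₀ : E →+* ℂ) (ζ : E) : Set ℕ :=
  {j | ∃ τ : E →+* ℂ, τ.comp (algebraMap F E) = τ₀.comp (algebraMap F E) ∧ τ ζ = τ₀ ζ ^ j}

theorem exists_res {F : Type} [Field F] {E : Type} [Field E] [NumberField E] [Algebra F E] {n : ℕ}
    (hn : n ≠ 0) {ζ : E} (hζ : IsPrimitiveRoot ζ n) (τ₀ : E →+* ℂ) {p q : ℕ}
    (hp : p.Prime) (hpq : p ∣ q) (hqn : q ∣ n) :
    ResQ (JSet F τ₀ ζ) p q (Module.finrank F (CyclotomicField q F)) := by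
  classical
  have hq0 : q ≠ 0 := fun h => hn (by rw [h] at hqn; exact Nat.eq_zero_of_zero_dvd hqn)
  have : NeZero q := ⟨hq0⟩
  have hF0 : CharZero F := (algebraMap F E).charZero_iff (algebraMap F E).injective |>.mpr
    inferInstance
  obtain ⟨k, hk⟩ := hqn
  have hω : IsPrimitiveRoot (ζ ^ k) q := hζ.pow (Nat.pos_of_ne_zero hn) (by rw [hk, mul_comm])
  set ω : E := ζ ^ k with hωd
  have hint : ∀ s : E, IsIntegral F s := fun s =>
    (Algebra.IsIntegral.isIntegral (R := ℚ) s).tower_top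
  have hint' : Algebra.IsIntegral F E := ⟨hint⟩
  let _ : Algebra F ℂ := (τ₀.comp (algebraMap F E)).toAlgebra
  have halg : ∀ x : F, algebraMap F ℂ x = τ₀ (algebraMap F E x) := fun x => rfl
  -- the roots
  let P := minpoly F ω
  have hsep : P.Separable := (minpoly.irreducible (hint ω)).separable
  have hcard : Fintype.card (P.rootSet ℂ) = P.natDegree :=
    card_rootSet_eq_natDegree hsep (IsAlgClosed.splits _)
  have hdeg : P.natDegree = Module.finrank F (CyclotomicField q F) := by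
    rw [← IntermediateField.adjoin.finrank (hint ω)]
    have h1 : IsCyclotomicExtension {q} F F⟮ω⟯ :=
      hω.intermediateField_adjoin_isCyclotomicExtension F
    exact (IsCyclotomicExtension.algEquiv {q} F F⟮ω⟯ (CyclotomicField q F)).toLinearEquiv.finrank_eq
  -- the embeddings
  have hemb : ∀ β : P.rootSet ℂ, ∃ j : ℕ, j ∈ JSet F τ₀ ζ ∧ (β : ℂ) = τ₀ ω ^ j := by
    intro β
    have hβ : aeval (β : ℂ) P = 0 := (mem_rootSet.mp β.2).2
    obtain ⟨φ, hφ⟩ := IntermediateField.exists_algHom_of_splits_of_aeval (F := F) (E := E)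
      (K := ℂ) (fun s => ⟨hint s, IsAlgClosed.splits _⟩) hβ
    have h1 : (φ.toRingHom ζ) ^ n = 1 := by rw [← map_pow, hζ.pow_eq_one, map_one]
    have : NeZero n := ⟨hn⟩
    obtain ⟨j, -, hj⟩ := (hζ.map_of_injective τ₀.injective).eq_pow_of_pow_eq_one h1
    refine ⟨j, ⟨φ.toRingHom, ?_, hj.symm⟩, ?_⟩
    · ext x
      exact φ.commutes x
    · rw [← hφ, hωd]
      change φ.toRingHom (ζ ^ k) = _
      rw [map_pow, map_pow, ← hj, ← pow_mul, ← pow_mul, mul_comm]
  choose j hjJ hjβ using hemb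
  have hinj : ∀ β β' : P.rootSet ℂ, j β % q = j β' % q → β = β' := by
    intro β β' h
    apply Subtype.ext
    rw [hjβ, hjβ]
    have h1 : IsPrimitiveRoot (τ₀ ω) q := hω.map_of_injective τ₀.injective
    rw [← Nat.div_add_mod (j β) q, ← Nat.div_add_mod (j β') q, h, pow_add, pow_add, pow_mul,
      pow_mul, h1.pow_eq_one, one_pow, one_pow]
  refine ⟨Finset.univ.image j, ?_, ?_, ?_⟩
  · rw [Finset.card_image_of_injective _ (fun β β' h => hinj β β' (by rw [h])), Finset.card_univ,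
      hcard, hdeg]
  · intro i hi
    obtain ⟨β, -, rfl⟩ := Finset.mem_image.mp hi
    refine ⟨hjJ β, ?_⟩
    rintro ⟨l, hl⟩
    have h1 : IsPrimitiveRoot (β : ℂ) q := by
      have hβ : aeval (β : ℂ) P = 0 := (mem_rootSet.mp β.2).2
      obtain ⟨φ, hφ⟩ := IntermediateField.exists_algHom_of_splits_of_aeval (F := F) (E := E)
        (K := ℂ) (fun s => ⟨hint s, IsAlgClosed.splits _⟩) hβ
      rw [← hφ]
      exact hω.map_of_injective φ.toRingHom.injective
    obtain ⟨t, ht⟩ := hpq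
    have h2 : (β : ℂ) ^ t = 1 := by
      rw [hjβ, hl, ← pow_mul]
      have h3 : p * l * t = q * l := by rw [ht]; ring
      rw [h3, pow_mul, (hω.map_of_injective τ₀.injective).pow_eq_one, one_pow]
    have h3 := h1.dvd_of_pow_eq_one t h2
    have h4 : t ≠ 0 := fun h => hq0 (by rw [ht, h, mul_zero])
    have h5 := Nat.le_of_dvd (Nat.pos_of_ne_zero h4) h3
    have h6 := hp.two_le
    rw [ht] at h5
    have h7 : 2 * t ≤ p * t := Nat.mul_le_mul_right t h6
    omega
  · intro i hi i' hi' h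
    obtain ⟨β, -, rfl⟩ := Finset.mem_image.mp hi
    obtain ⟨β', -, rfl⟩ := Finset.mem_image.mp hi'
    rw [hinj β β' h]

end Pool.Agent.N28.DL
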