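import Mathlib
import Pool.Agent.N28.DL.CritRig
import Pool.Agent.N28.DL.Chain

/-!
# Galois stable Heilbronn functions, for a set of exponents
-/

set_option autoImplicit false
set_option linter.unusedSectionVars false

namespace Pool.Agent.N28.DL

open Pool.Agent.H302R2 Pool.Agent.H302R3 Pool.Agent.H541R3.ART Pool.Agent.W446.AS Pool.Agent.R389
  Pool.Agent.H302R5 Pool.Agent.H302R6

section crit

variable {X : Type} [Group X] [Finite X] {E : Subgroup X} {p n : ℕ}

/-- the multiplicity of a central character which is not trivial on the derived subgroup -/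
theorem crit_part (hE : Crit X E p n) {η : X → ℂ} (hη : HA η) (μ : Subgroup.center X →* ℂˣ)
    {y : Subgroup.center X} (hy : (y : X) ∈ ⁅E, E⁆) (hμy : μ y ≠ 1) :
    ∃ k : ℕ, part (Subgroup.center X) μ η 1 = k ∧ (k ≠ 0 → p ^ n ≤ k) := by
  classical
  let Z := Subgroup.center X
  have hZE : Z ≤ E := hE.le
  have hEZ : ⁅E, E⁆ ≤ Z := by
    rw [Subgroup.commutator_le]
    intro x hx y hy
    have := hE.comm x hx y hy
    rwa [← commutatorElement_def] at this
  have hcyc := hE.cyc
  -- elements of the derived subgroup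
  have hpow : ∀ y ∈ ⁅E, E⁆, y ^ p = 1 := by
    intro y hy
    rw [Subgroup.commutator_def] at hy
    have hyz : ∀ y ∈ ⁅E, E⁆, ∀ g, g * y = y * g := fun y hy g =>
      Subgroup.mem_center_iff.mp (hEZ hy) g
    refine Subgroup.closure_induction (p := fun y _ => y ^ p = 1) ?_ ?_ ?_ ?_ hy
    · rintro _ ⟨a, ha, b, hb, rfl⟩
      exact crit_comm hE ha hb
    · exact one_pow p
    · intro a b ha hb h2 h3
      have ha' : a ∈ ⁅E, E⁆ := by rw [Subgroup.commutator_def]; exact ha
      have : Commute a b := (hyz a ha' b).symm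
      rw [this.mul_pow, h2, h3, one_mul]
    · intro a _ h2
      rw [inv_pow, h2, inv_one]
  have hμinv : ∀ (g : X) (w : Z), μ (MulAut.conjNormal g w) = μ w := by
    intro g w
    congr 1
    apply Subtype.ext
    rw [MulAut.conjNormal_apply]
    have h1 := Subgroup.mem_center_iff.mp w.2 g
    rw [h1, mul_inv_cancel_right]
  have hμ1 : ∀ w : Z, (w : X) ^ p = 1 → w ≠ 1 → μ w ≠ 1 := by
    intro w hw hw1 hμw
    have hw' : w ^ p = 1 := Subtype.ext (by push_cast; exact hw)
    have hy' : y ^ p = 1 := Subtype.ext (by push_cast; exact hpow y hy)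
    obtain ⟨k, rfl⟩ := Subgroup.mem_zpowers_iff.mp
      (mem_zpowers_of_cyclic hcyc hE.prime hw' hw1 hy')
    apply hμy
    rw [map_zpow, hμw, one_zpow]
  let μB := rmu hZE μ
  have hμB : ∀ (g : E) (n : Z.subgroupOf E), μB (MulAut.conjNormal g n) = μB n :=
    rmu_inv hZE μ (fun g _ n => hμinv g n)
  have hAB : HA (fun x : E => η x) := hη.res E
  -- the degrees
  have hdeg : ∀ χ ∈ Irr E, part (Z.subgroupOf E) μB χ ≠ 0 → ∀ d : ℕ, χ 1 = d → p ^ n ≤ d := by
    intro χ hχ hne d hd
    have hχμ : ∀ g, ∀ w : Z.subgroupOf E, χ (g * w) = χ g * ((μB w : ℂˣ) : ℂ) := by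
      rcases irr_part hμB hχ with h | h
      · exact h
      · exact absurd h hne
    have h1 := deg_sq (Z.subgroupOf E) hχ hχμ (by
      intro x hx
      have hxZ : (x : X) ∉ Z := fun h => hx (Subgroup.mem_subgroupOf.mpr h)
      obtain ⟨e, he, hxe⟩ : ∃ e ∈ E, (x : X) * e ≠ e * x := by
        by_contra hcon
        push Not at hcon
        exact hxZ (hE.cent x x.2 hcon)
      have hwZ : (x : X)⁻¹ * (e * x * e⁻¹) ∈ Z := by
        have h3 := hE.comm (x : X)⁻¹ (inv_mem x.2) e he
        rw [inv_inv] at h3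
        have h4 : (x : X)⁻¹ * (e * x * e⁻¹) = (x : X)⁻¹ * e * x * e⁻¹ := by group
        rw [h4]
        exact h3
      refine ⟨⟨e, he⟩, ⟨⟨(x : X)⁻¹ * (e * x * e⁻¹), hZE hwZ⟩,
        Subgroup.mem_subgroupOf.mpr hwZ⟩, ?_, ?_⟩
      · change μ ⟨(x : X)⁻¹ * (e * x * e⁻¹), hwZ⟩ ≠ 1
        refine hμ1 _ ?_ ?_
        · have h3 := crit_comm hE (inv_mem x.2) he
          rw [inv_inv] at h3
          have h4 : (x : X)⁻¹ * (e * x * e⁻¹) = (x : X)⁻¹ * e * x * e⁻¹ := by group
          change ((x : X)⁻¹ * (e * x * e⁻¹)) ^ p = 1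
          rw [h4, h3]
        · intro h5
          have h6 : (x : X)⁻¹ * (e * x * e⁻¹) = 1 := congrArg Subtype.val h5
          apply hxe
          have h7 : e * (x : X) * e⁻¹ = x := by
            have := congrArg (fun t => (x : X) * t) h6
            simpa using this
          exact (mul_inv_eq_iff_eq_mul.mp h7).symm
      · apply Subtype.ext
        change e * (x : X) * e⁻¹ = (x : X) * ((x : X)⁻¹ * (e * x * e⁻¹))
        group) hd
    have h2 : Nat.card (Z.subgroupOf E) = Nat.card Z :=
      Nat.card_congr (Subgroup.subgroupOfEquivOfLe hZE).toEquiv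
    rw [h2, hE.card] at h1
    have h3 : 0 < Nat.card Z := Nat.card_pos
    have h4 : p ^ (2 * n) = d ^ 2 := Nat.eq_of_mul_eq_mul_right h3 h1
    have h5 : (p ^ n) ^ 2 = d ^ 2 := by rw [← h4, ← pow_mul, mul_comm]
    have h6 : p ^ n = d := Nat.pow_left_injective (by norm_num : 2 ≠ 0) h5
    omega
  -- the quotient is abelian
  have hnil : Group.IsNilpotent (E ⧸ Z.subgroupOf E) := by
    have hcom : ∀ a b : E ⧸ Z.subgroupOf E, a * b = b * a := by
      intro a b
      obtain ⟨x, rfl⟩ := QuotientGroup.mk_surjective a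
      obtain ⟨y, rfl⟩ := QuotientGroup.mk_surjective b
      change (QuotientGroup.mk (x * y) : E ⧸ Z.subgroupOf E) = QuotientGroup.mk (y * x)
      rw [QuotientGroup.eq, Subgroup.mem_subgroupOf]
      have h3 := hE.comm (y : X)⁻¹ (inv_mem y.2) (x : X)⁻¹ (inv_mem x.2)
      have h4 : (((x * y)⁻¹ * (y * x) : E) : X)
          = (y : X)⁻¹ * (x : X)⁻¹ * (y : X)⁻¹⁻¹ * (x : X)⁻¹⁻¹ := by
        push_cast
        group
      rw [h4]
      exact h3
    let _ : CommGroup (E ⧸ Z.subgroupOf E) :=
      { (inferInstance : Group (E ⧸ Z.subgroupOf E)) with mul_comm := hcom }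
    exact CommGroup.isNilpotent
  -- the expansion
  have hval : part Z μ η 1 = ∑ χ ∈ irrF E,
      pr (fun x : E => η x) χ * part (Z.subgroupOf E) μB χ 1 := by
    rw [← part_expand hAB.conj, part_res hZE μ η 1, Subgroup.coe_one]
  have hterm : ∀ χ ∈ irrF E, ∃ k : ℕ,
      pr (fun x : E => η x) χ * part (Z.subgroupOf E) μB χ 1 = k ∧ (k ≠ 0 → p ^ n ≤ k) := by
    intro χ hχ
    have hχ' := mem_irrF.mp hχ
    by_cases hne : part (Z.subgroupOf E) μB χ = 0
    · exact ⟨0, by rw [hne]; simp, fun h => absurd rfl h⟩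
    · obtain ⟨k, hk⟩ := HA.mono_nat' hAB (mono_of_nil hμB hχ' hne hnil)
      obtain ⟨d, hd0, hd⟩ := irr_deg_pos hχ'
      have hrd := hdeg χ hχ' hne d hd
      refine ⟨k * d, ?_, fun h => ?_⟩
      · rcases irr_part' hμB hχ' with h | h
        · rw [h, hk, hd]; push_cast; rfl
        · exact absurd h hne
      · have hk0 : k ≠ 0 := fun h' => h (by rw [h', zero_mul])
        calc p ^ n ≤ d := hrd
          _ ≤ k * d := Nat.le_mul_of_pos_left d (Nat.pos_of_ne_zero hk0)
  choose! kk hkk hkk' using hterm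
  have hval2 : part Z μ η 1 = ((∑ χ ∈ irrF E, kk χ : ℕ) : ℂ) := by
    rw [hval, Nat.cast_sum]
    exact Finset.sum_congr rfl fun χ hχ => hkk χ hχ
  refine ⟨∑ χ ∈ irrF E, kk χ, hval2, fun h => ?_⟩
  obtain ⟨χ, hχ, hne⟩ := Finset.exists_ne_zero_of_sum_ne_zero h
  exact (hkk' χ hχ hne).trans (Finset.single_le_sum (fun _ _ => Nat.zero_le _) hχ)

end crit

section gal

variable {G : Type} [Group G]

/-- The set of the linear characters of subgroups with multiplicity zero is stable under the powers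
in `J`. -/
def GSt (J : Set ℕ) (θ : G → ℂ) : Prop :=
  ∀ (U : Subgroup G) (ψ : U →* ℂˣ), ∀ j ∈ J,
    (pr θ (ind U (fun h => ((ψ h : ℂˣ) : ℂ))) = 0 ↔
      pr θ (ind U (fun h => (((ψ ^ j) h : ℂˣ) : ℂ))) = 0)

lemma GSt.res [Finite G] {J : Set ℕ} {θ : G → ℂ} (h : GSt J θ)
    (hc : ∀ g x : G, θ (x * g * x⁻¹) = θ g) (H : Subgroup G) : GSt J (fun x : H => θ x) := by
  intro U ψ j hj
  have h1 := h (U.map H.subtype)
    (ψ.comp (U.equivMapOfInjective H.subtype H.subtype_injective).symm.toMonoidHom) j hj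
  have key : ∀ ψ : U →* ℂˣ, pr (fun x : H => θ x) (ind U (fun h => ((ψ h : ℂˣ) : ℂ)))
      = pr θ (ind (U.map H.subtype) (fun h =>
        (((ψ.comp (U.equivMapOfInjective H.subtype H.subtype_injective).symm.toMonoidHom) h : ℂˣ)
          : ℂ))) := by
    intro ψ
    rw [← frob' H _ hc, ind_ind]
    rfl
  rw [key, key]
  exact h1

lemma GSt.push [Finite G] [Fintype G] {J : Set ℕ} {θ : G → ℂ} (h : GSt J θ) {X : Type} [Group X]
    [Finite X] {π : G →* X} (hπ : Function.Surjective π)
    (hc : ∀ g x : X, push π θ (x * g * x⁻¹) = push π θ g) : GSt J (push π θ) := by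
  intro V ψ j hj
  have h1 := h (V.comap π) (ψ.comp
      { toFun := fun h : V.comap π => ⟨π h, h.2⟩
        map_one' := by apply Subtype.ext; simp
        map_mul' := by intro a b; apply Subtype.ext; simp }) j hj
  have key : ∀ ψ : V →* ℂˣ, pr (Pool.Agent.H302R5.push π θ) (ind V (fun h => ((ψ h : ℂˣ) : ℂ)))
      = pr θ (ind (V.comap π) (fun h => (((ψ.comp
      { toFun := fun h : V.comap π => ⟨π h, h.2⟩
        map_one' := by apply Subtype.ext; simp
        map_mul' := by intro a b; apply Subtype.ext; simp }) h : ℂˣ) : ℂ))) := by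
    intro ψ
    rw [pr_push hπ]
    congr 1
    exact ind_comap hπ V _
  rw [key, key]
  exact h1

/-- Rigidity for Galois stable Heilbronn functions `η = η₀ + η₁`, where `η₀` is invariant under `Y`
and `η₁` has degree at most `s`. -/
def RigJ (J : Set ℕ) (s : ℕ) (X : Type) [Group X] (Y : Subgroup X) : Prop :=
  ∀ η η₀ η₁ : X → ℂ, η = η₀ + η₁ → HA η → GSt J η → HA η₁ →
    (∀ x, ∀ y ∈ Y, η₀ (x * y) = η₀ x) → ∀ s' : ℕ, s' ≤ s → η₁ 1 = s' →
    ∀ x, ∀ y ∈ Y, η (x * y) = η x

/-- The condition on the sections. -/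
def SecJ (J : Set ℕ) {ι : Type} (s : ι → ℕ) {G : Type} [Group G] (K : ι → Subgroup G)
    (N : Subgroup G) : Prop :=
  ∀ (H : Subgroup G) (X : Type) [Group X] [Finite X] (q : H →* X), Function.Surjective q →
    IsCyclic (Subgroup.center X) →
    (∀ A : Subgroup X, A.Normal → (∀ a ∈ A, ∀ b ∈ A, a * b = b * a) → A ≤ Subgroup.center X) →
    (∃ a ∈ (N.subgroupOf H).map q, ∃ b ∈ (N.subgroupOf H).map q, a * b ≠ b * a) →
    ∃ (i : ι) (Y : Subgroup X), Y.Normal ∧ Y ≠ ⊥ ∧ Y ≤ ((K i).subgroupOf H).map q ∧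
      RigJ J (s i) X Y

lemma SecJ.sub {J : Set ℕ} {ι : Type} {s : ι → ℕ} {G : Type} [Group G] {K : ι → Subgroup G} {N : Subgroup G}
    (h : SecJ J s K N) (U : Subgroup G) :
    SecJ J s (fun i => (K i).subgroupOf U) (N.subgroupOf U) := by
  intro H X _ _ q hq hcyc hab hne
  let e : H.map U.subtype ≃* H := (H.equivMapOfInjective U.subtype U.subtype_injective).symm
  have he : ∀ x : H, e ⟨((x : U) : G), ⟨x, x.2, rfl⟩⟩ = x := by
    intro x
    rw [MulEquiv.symm_apply_eq]
    rfl
  have hm : ∀ N : Subgroup G, (N.subgroupOf (H.map U.subtype)).map (q.comp e.toMonoidHom)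
      = ((N.subgroupOf U).subgroupOf H).map q := by
    intro N
    ext x
    constructor
    · rintro ⟨⟨_, k, hk, rfl⟩, hy, rfl⟩
      refine ⟨⟨k, hk⟩, hy, ?_⟩
      change q _ = q (e _)
      congr 1
      exact (he ⟨k, hk⟩).symm
    · rintro ⟨y, hy, rfl⟩
      refine ⟨⟨((y : U) : G), ⟨y, y.2, rfl⟩⟩, hy, ?_⟩
      change q (e _) = q y
      rw [he]
  obtain ⟨i, Y, h1, h2, h3, h4⟩ := h (H.map U.subtype) X (q.comp e.toMonoidHom)
    (hq.comp e.surjective) hcyc hab (by rw [hm]; exact hne)
  rw [hm] at h3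
  exact ⟨i, Y, h1, h2, h3, h4⟩


end gal

section main

variable {G : Type} [Group G] [Finite G] {θ : G → ℂ}

/-- characters which are nontrivial on a rigid normal subgroup of the quotient -/
theorem rig_goodJ {J : Set ℕ} {X : Type} [Group X] [Finite X] {π : G →* X} (hπ : Function.Surjective π)
    {η : X → ℂ} (hη : η ∈ Irr X) {Y : Subgroup X} (hYn : Y.Normal) (hYη : ∃ y ∈ Y, η y ≠ η 1)
    {K : Subgroup G} (hYK : Y ≤ K.map π) {s : ℕ} (hR : RigJ J s X Y) (hA : HA θ)
    (hG : GSt J θ) {θ₀ θ₁ : G → ℂ}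
    (hsum : θ = θ₀ + θ₁) (hA1 : HA θ₁) (h0 : ∀ g, ∀ k ∈ K, θ₀ (g * k) = θ₀ g) {s' : ℕ}
    (hs : s' ≤ s) (hs1 : θ₁ 1 = s') : (fun g => η (π g)) ∈ GoodA θ := by
  classical
  have : Fintype G := Fintype.ofFinite G
  have : Fintype X := Fintype.ofFinite X
  have : Fintype π.ker := Fintype.ofFinite _
  -- the push forward is invariant under `Y`
  have hH1 := push_isHeilbronn hπ (heil_of hA1)
  obtain ⟨r', hr', hr1⟩ := push_one_nat_le hπ (heil_of hA1) hs1
  have e0 : ∀ x, ∀ y ∈ Y, push π θ₀ (x * y) = push π θ₀ x := by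
    intro x y hy
    obtain ⟨g, rfl⟩ := hπ x
    obtain ⟨k, hk, rfl⟩ := hYK hy
    rw [← map_mul, push_apply, push_apply]
    congr 1
    rw [← Equiv.sum_comp (MulAut.conjNormal k).toEquiv (fun n : π.ker => θ₀ (g * n))]
    refine Finset.sum_congr rfl fun n _ => ?_
    change _ = θ₀ (g * ((MulAut.conjNormal k n : π.ker) : G))
    rw [MulAut.conjNormal_apply, ← h0 (g * (k * n * k⁻¹)) k hk]
    congr 1
    group
  have hHp := push_isHeilbronn hπ (heil_of hA)
  have e2 : ∀ x, ∀ y ∈ Y, push π θ (x * y) = push π θ x := by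
    refine hR (push π θ) (push π θ₀) (push π θ₁) ?_ (ha_of hHp) (hG.push hπ hHp.conj)
      (ha_of hH1) e0 r' (hr'.trans hs) hr1
    funext z
    obtain ⟨g, rfl⟩ := hπ z
    rw [Pi.add_apply, push_apply, push_apply, push_apply, ← mul_add, ← Finset.sum_add_distrib,
      hsum]
    rfl
  have hinvp : part Y 1 (push π θ) = push π θ := by
    rw [part_one]
    exact inv_of_const Y e2
  -- the relative Brauer theorem
  have h1 : η ∈ NewA Y := by
    refine relative_brauer Y (AddSubgroup.subset_closure hη) ?_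
    rcases irr_inv Y hη with h | h
    · exfalso
      obtain ⟨y, hy, hne⟩ := hYη
      apply hne
      have := h 1 y hy
      rwa [one_mul] at this
    · exact h.2
  let m : (X → ℂ) →+ (G → ℂ) := AddMonoidHom.mk' (fun u g => u (π g)) (fun a b => rfl)
  have h2 : NewA Y ≤ (GoodA θ).comap m := by
    rw [NewA, AddSubgroup.closure_le]
    rintro f ⟨V, ψ, -, ⟨v, hv, hne⟩, rfl⟩
    rw [SetLike.mem_coe, AddSubgroup.mem_comap]
    change (fun g => ind V _ (π g)) ∈ GoodA θ
    refine AddSubgroup.subset_closure ⟨V.comap π, ψ.comp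
      { toFun := fun h : V.comap π => ⟨π h, h.2⟩
        map_one' := by apply Subtype.ext; simp
        map_mul' := by intro a b; apply Subtype.ext; simp }, ind_comap hπ V _, ?_⟩
    rw [← pr_push hπ, frob' V _ hHp.conj]
    have h3 : sm V ψ (part Y 1 (push π θ)) = 0 := sm_zero_of 1 ψ (x₀ := v) hv (by simpa using hne)
    rw [hinvp, sm_pr] at h3
    exact (mul_eq_zero.mp h3).resolve_left card_ne
  exact h2 h1

/-- **Main group theoretic theorem.** -/
theorem gtJ (J : Set ℕ) {ι : Type} (s : ι → ℕ) : ∀ (n : ℕ) (G : Type) [Group G] [Finite G], Nat.card G = n →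
    ∀ (N : Subgroup G) (K : ι → Subgroup G), SSo N → SecJ J s K N → ∀ θ : G → ℂ, HA θ → GSt J θ →
    (∀ i, ∃ θ₀ θ₁ : G → ℂ, θ = θ₀ + θ₁ ∧ HA θ₁ ∧ (∀ g, ∀ k ∈ K i, θ₀ (g * k) = θ₀ g) ∧
      ∃ s' : ℕ, s' ≤ s i ∧ θ₁ 1 = s') →
    ∀ χ ∈ Irr G, R389.Mono χ ∨ χ ∈ GoodA θ := by
  intro n
  induction n using Nat.strong_induction_on with
  | _ n ih =>
    intro G _ _ hn N K hSS hSec θ hA hG hdec χ hχ
    classical
    obtain ⟨m, ρ, hρ, rfl⟩ := exists_rep hχ
    let π : G →* G ⧸ ρ.ker := QuotientGroup.mk' _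
    have hπ : Function.Surjective π := QuotientGroup.mk'_surjective _
    let σ : Representation ℂ (G ⧸ ρ.ker) (Fin m → ℂ) := QuotientGroup.lift ρ.ker ρ (fun g hg => hg)
    have hσρ : ∀ g, σ (π g) = ρ g := fun g => rfl
    have hf : ∀ x, σ x = 1 → x = 1 := by
      intro x hx
      obtain ⟨g, rfl⟩ := hπ x
      exact (QuotientGroup.eq_one_iff g).mpr hx
    have hσ : Irred σ := ⟨hρ.1, fun W hW => hρ.2 W fun g v hv => by
      rw [← hσρ]; exact hW (π g) v hv⟩
    have hψ := irr_of_irred hσ
    have hχψ : ρ.character = fun g => σ.character (π g) := rfl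
    by_cases hab : ∀ A : Subgroup (G ⧸ ρ.ker), A.Normal → (∀ a ∈ A, ∀ b ∈ A, a * b = b * a) →
      A ≤ Subgroup.center (G ⧸ ρ.ker)
    swap
    · -- induced from a proper subgroup
      push Not at hab
      obtain ⟨A, hAn, hA1', hA2⟩ := hab
      obtain ⟨H, hH, φ, hφ, hφ1⟩ := clifford_char hσ hf A (fun a b => Subtype.ext
        (hA1' a a.2 b b.2)) hA2
      let H' : Subgroup G := H.comap π
      let π' : H' →* H :=
        { toFun := fun h => ⟨π h, h.2⟩
          map_one' := by apply Subtype.ext; simp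
          map_mul' := by intro a b; apply Subtype.ext; simp }
      have hπ' : Function.Surjective π' := by
        rintro ⟨y, hy⟩
        obtain ⟨g, rfl⟩ := hπ y
        exact ⟨⟨g, hy⟩, rfl⟩
      have hχ1 : ρ.character = ind H' (fun h => φ (π' h)) := by
        rw [hχψ, hφ1]
        exact ind_comap hπ H φ
      have hlt : Nat.card H' < n := by
        rw [← hn]
        rcases lt_or_eq_of_le (Nat.le_of_dvd Nat.card_pos H'.card_subgroup_dvd_card) with h | h
        · exact h
        · exfalso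
          apply hH
          have h1 := Subgroup.eq_top_of_card_eq H' h
          rw [eq_top_iff]
          intro y _
          obtain ⟨g, rfl⟩ := hπ y
          have : g ∈ H' := by rw [h1]; exact Subgroup.mem_top g
          exact this
      rcases ih _ hlt H' rfl (N.subgroupOf H') (fun i => (K i).subgroupOf H') (hSS.sub H')
        (hSec.sub H') (fun x => θ x) (hA.res H') (hG.res hA.conj H')
        (fun i => by
          obtain ⟨θ₀, θ₁, h1, h2, h3, s', h4, h5⟩ := hdec i
          exact ⟨fun x => θ₀ x, fun x => θ₁ x, by rw [h1]; rfl, h2.res H',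
            fun g k hk => h3 g k hk, s', h4, h5⟩) _ (irr_comp hπ' hφ) with h | h
      · left
        rw [hχ1]
        exact h.ind
      · right
        rw [hχ1]
        exact goodA_ind hA.conj H' h
    · by_cases hX : ∀ a b : G ⧸ ρ.ker, a * b = b * a
      · left
        rw [hχψ]
        exact (mono_abelian hX hψ).comp hπ
      · by_cases hY : ∀ a ∈ N.map π, ∀ b ∈ N.map π, a * b = b * a
        · exact absurd (hSS.abelian π hπ hab hY) hX
        · right
          push Not at hY
          obtain ⟨ω, hω⟩ := hσ.central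
          have hωi : Function.Injective ω := by
            rw [injective_iff_map_eq_one]
            intro z hz
            apply Subtype.ext
            apply hf
            refine LinearMap.ext fun v => ?_
            rw [hω z v, hz, Units.val_one, one_smul, Module.End.one_apply]
          have hcyc : IsCyclic (Subgroup.center (G ⧸ ρ.ker)) :=
            isCyclic_of_injective_ringHom ((Units.coeHom ℂ).comp ω)
              (Units.val_injective.comp hωi)
          let q : (⊤ : Subgroup G) →* G ⧸ ρ.ker := π.comp (⊤ : Subgroup G).subtype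
          have hq : Function.Surjective q := by
            intro x
            obtain ⟨g, rfl⟩ := hπ x
            exact ⟨⟨g, Subgroup.mem_top g⟩, rfl⟩
          have hm : ∀ N : Subgroup G, (N.subgroupOf ⊤).map q = N.map π := by
            intro N
            ext x
            constructor
            · rintro ⟨y, hy, rfl⟩
              exact ⟨y, hy, rfl⟩
            · rintro ⟨y, hy, rfl⟩
              exact ⟨⟨y, Subgroup.mem_top y⟩, hy, rfl⟩
          obtain ⟨i, Y, hYn, hY0, hYK, hR⟩ := hSec ⊤ _ q hq hcyc hab (by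
            rw [hm]
            obtain ⟨a, ha, b, hb, hne⟩ := hY
            exact ⟨a, ha, b, hb, hne⟩)
          rw [hm] at hYK
          obtain ⟨θ₀, θ₁, h1, h2, h3, s', h4, h5⟩ := hdec i
          rw [hχψ]
          refine rig_goodJ hπ hψ hYn ?_ hYK hR hA hG h1 h2 h3 h4 h5
          by_contra hcon
          push Not at hcon
          apply hY0
          have hX : Fintype (G ⧸ ρ.ker) := Fintype.ofFinite _
          have hYf : Fintype Y := Fintype.ofFinite _
          rw [eq_bot_iff]
          intro y hy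
          rw [Subgroup.mem_bot]
          rcases hσ.normal_dich Y with h6 | h6
          · exact hf y (h6 y hy)
          · exfalso
            have h7 := h6 1
            have h8 : ∀ x : Y, σ.character (1 * x) = σ.character 1 := by
              intro x
              rw [one_mul]
              exact hcon x x.2
            rw [Finset.sum_congr rfl (fun x _ => h8 x), Finset.sum_const, nsmul_eq_mul,
              Finset.card_univ] at h7
            have h9 : (Fintype.card Y : ℂ) ≠ 0 := by
              rw [← Nat.card_eq_fintype_card]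
              exact card_ne
            rcases mul_eq_zero.mp h7 with h10 | h10
            · exact h9 h10
            · obtain ⟨d, hd, h11⟩ := irr_deg_pos hψ
              rw [h10] at h11
              norm_cast at h11
              omega


end main

end Pool.Agent.N28.DL
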