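import Mathlib
import Pool.Agent.N28.DJ.Gal
import Pool.Agent.N28.DJ.Emb

/-!
# Rigid subgroups for Galois stable Heilbronn functions
-/

set_option autoImplicit false
set_option linter.unusedSectionVars false

namespace Pool.Agent.N28.DL

open Pool.Agent.H302R2 Pool.Agent.H302R3 Pool.Agent.H541R3.ART Pool.Agent.W446.AS Pool.Agent.R389
  Pool.Agent.H302R5 Pool.Agent.H302R6

/-- the value of the parts at one -/
lemma part_one_pr {X : Type} [Group X] [Finite X] {η : X → ℂ}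
    (hc : ∀ g x : X, η (x * g * x⁻¹) = η g) (W : Subgroup X) (μ : W →* ℂˣ) :
    part W μ η 1 = pr η (ind W (fun h => ((μ h : ℂˣ) : ℂ))) := by
  classical
  have : Fintype W := Fintype.ofFinite W
  rw [frob' W _ hc, part_eq, pr_eq]
  congr 1
  refine Finset.sum_congr rfl fun w _ => ?_
  rw [one_mul, map_inv]

lemma part_add {X : Type} [Group X] [Finite X] (W : Subgroup X) (μ : W →* ℂˣ) (f g : X → ℂ) :
    part W μ (f + g) = part W μ f + part W μ g :=
  map_add (partHom W μ) f g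

/-- counting the conjugates of a linear character -/
lemma res_count {X : Type} [Group X] [Finite X] {W : Subgroup X}
    (hW : ∀ a ∈ W, ∀ b ∈ W, a * b = b * a) {J : Set ℕ} {p q d : ℕ} (hp : p.Prime)
    (hJ : ResQ J p q d) {η η₀ η₁ : X → ℂ} (hsum : η = η₀ + η₁) (hη : HA η) (hG : GSt J η)
    (h1 : HA η₁) {y : W} (h0 : ∀ g, η₀ (g * y) = η₀ g) {s : ℕ} (hd : η₁ 1 = s) {M : ℕ}
    (hM : ∀ μ : W →* ℂˣ, μ y ≠ 1 → ∀ k : ℕ, part W μ η₁ 1 = k → k ≠ 0 → M ≤ k)
    {μ : W →* ℂˣ} (hyp : y ^ p = 1) (hμy : μ y ≠ 1) {z : W} (hz : orderOf (μ z) = q)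
    (hne : part W μ η 1 ≠ 0) : d * M ≤ s := by
  classical
  have : Fintype (W →* ℂˣ) := Fintype.ofFinite _
  have hcommW : ∀ (f : X → ℂ) g, ∀ k ∈ ⁅W, W⁆, f (g * k) = f g := by
    intro f g k hk
    have h2 : ⁅W, W⁆ = ⊥ := by
      rw [eq_bot_iff, Subgroup.commutator_le]
      intro a ha b hb
      rw [Subgroup.mem_bot, commutatorElement_def, hW a ha b hb]
      group
    rw [h2, Subgroup.mem_bot] at hk
    rw [hk, mul_one]
  have hnat : ∀ μ : W →* ℂˣ, ∃ k : ℕ, part W μ η₁ 1 = k := by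
    intro μ
    rw [part_one_pr h1.conj]
    exact h1.nat W μ
  choose kk hkk using hnat
  have hksum : ∑ μ : W →* ℂˣ, kk μ = s := by
    have h2 := sum_part W (hcommW η₁) 1
    rw [hd, Finset.sum_congr rfl (fun μ _ => hkk μ)] at h2
    exact_mod_cast h2
  have hyp' : orderOf (μ y) = p := by
    have : Fact p.Prime := ⟨hp⟩
    refine orderOf_eq_prime ?_ hμy
    rw [← map_pow, hyp, map_one]
  have h0' : ∀ μ : W →* ℂˣ, μ y ≠ 1 → part W μ η = part W μ η₁ := by
    intro μ hμ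
    rw [hsum, part_add, part_inv_zero (k := y) hμ h0, zero_add]
  obtain ⟨T, hT, hTJ, hTi⟩ := hJ
  have hjy : ∀ j ∈ T, (μ ^ j) y ≠ 1 := by
    intro j hj h2
    rw [MonoidHom.pow_apply] at h2
    have h3 := orderOf_dvd_of_pow_eq_one h2
    rw [hyp'] at h3
    exact (hTJ j hj).2 h3
  have hbig : ∀ j ∈ T, M ≤ kk (μ ^ j) := by
    intro j hj
    have h2 := hG W μ j (hTJ j hj).1
    rw [← part_one_pr hη.conj, ← part_one_pr hη.conj] at h2
    have h3 : part W (μ ^ j) η 1 ≠ 0 := fun h => hne (h2.mpr h)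
    rw [h0' _ (hjy j hj), hkk] at h3
    exact hM _ (hjy j hj) _ (hkk _) (fun h => h3 (by rw [h, Nat.cast_zero]))
  have hinj : ∀ j ∈ T, ∀ j' ∈ T, μ ^ j = μ ^ j' → j = j' := by
    intro j hj j' hj' huv
    apply hTi j hj j' hj'
    have h2 : (μ ^ j) z = (μ ^ j') z := by rw [huv]
    rwa [MonoidHom.pow_apply, MonoidHom.pow_apply, pow_inj_mod, hz] at h2
  calc d * M ≤ T.card * M := Nat.mul_le_mul_right _ hT
    _ = ∑ j ∈ T, M := by rw [Finset.sum_const, smul_eq_mul]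
    _ ≤ ∑ j ∈ T, kk (μ ^ j) := Finset.sum_le_sum hbig
    _ = ∑ ν ∈ T.image (fun j => μ ^ j), kk ν := by
        rw [Finset.sum_image (fun a ha b hb h => hinj a ha b hb h)]
    _ ≤ ∑ ν : W →* ℂˣ, kk ν := Finset.sum_le_sum_of_subset (Finset.subset_univ _)
    _ = s := hksum

/-- the `p`-part of a cyclic group -/
lemma exists_ppart {Z : Type} [Group Z] [Finite Z] (hZ : IsCyclic Z) {p : ℕ} (hp : p.Prime)
    {μ : Z →* ℂˣ} {y : Z} (hy : y ^ p = 1) (hμy : μ y ≠ 1) :
    ∃ z : Z, orderOf (μ z) = p ^ (Nat.card Z).factorization p := by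
  classical
  have : Fact p.Prime := ⟨hp⟩
  obtain ⟨g, hg⟩ := hZ.exists_generator
  have hog : orderOf g = Nat.card Z := orderOf_eq_card_of_forall_mem_zpowers hg
  have hy1 : y ≠ 1 := by
    rintro rfl
    exact hμy (map_one μ)
  have hpZ : p ∣ Nat.card Z := by
    rw [← orderOf_eq_prime hy hy1]
    exact orderOf_dvd_natCard y
  set a := (Nat.card Z).factorization p with ha
  have ha0 : a ≠ 0 := by
    rw [ha]
    exact (hp.factorization_pos_of_dvd Nat.card_pos.ne' hpZ).ne'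
  set m := Nat.card Z / p ^ a with hm
  have hmZ : m * p ^ a = Nat.card Z := Nat.div_mul_cancel (Nat.ordProj_dvd _ _)
  have hm0 : m ≠ 0 := by
    intro h
    rw [h, zero_mul] at hmZ
    exact Nat.card_pos.ne' hmZ.symm
  refine ⟨g ^ m, ?_⟩
  have hoz : orderOf (g ^ m) = p ^ a := by
    rw [orderOf_pow, hog, Nat.gcd_eq_right ⟨p ^ a, hmZ.symm⟩]
    exact Nat.div_eq_of_eq_mul_right (Nat.pos_of_ne_zero hm0) hmZ.symm
  obtain ⟨b, hb⟩ : ∃ b, a = b + 1 := ⟨a - 1, by omega⟩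
  have hw : ((g ^ m) ^ p ^ b) ^ p = 1 := by
    rw [← pow_mul, ← pow_succ, ← hb, ← hoz, pow_orderOf_eq_one]
  have hw1 : (g ^ m) ^ p ^ b ≠ 1 := by
    intro h
    have h1 := orderOf_dvd_of_pow_eq_one h
    rw [hoz, hb] at h1
    have h2 := Nat.le_of_dvd (pow_pos hp.pos b) h1
    have h3 : p ^ b < p ^ (b + 1) := Nat.pow_lt_pow_right hp.one_lt (by omega)
    omega
  rw [hb]
  refine orderOf_eq_prime_pow ?_ ?_
  · intro h
    rw [← map_pow] at h
    obtain ⟨k, hk⟩ := Subgroup.mem_zpowers_iff.mp (mem_zpowers_of_cyclic hZ hp hw hw1 hy)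
    apply hμy
    rw [← hk, map_zpow, h, one_zpow]
  · rw [← map_pow, ← hb, ← hoz, pow_orderOf_eq_one, map_one]

/-- **Critical subgroups are rigid for Galois stable Heilbronn functions.** -/
theorem crit_rigJ {X : Type} [Group X] [Finite X] {E : Subgroup X} {p m : ℕ} (hE : Crit X E p m)
    {J : Set ℕ} {d : ℕ}
    (hJ : ResQ J p (p ^ (Nat.card (Subgroup.center X)).factorization p) d) {s : ℕ}
    (hs : s < d * p ^ m) : RigJ J s X ⁅E, E⁆ := by
  classical
  intro η η₀ η₁ hsum hη hG h1 h0 s' hs' hd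
  let Z := Subgroup.center X
  have hEZ : ⁅E, E⁆ ≤ Z := by
    rw [Subgroup.commutator_le]
    intro x hx y hy
    have := hE.comm x hx y hy
    rwa [← commutatorElement_def] at this
  have : Fintype (Z →* ℂˣ) := Fintype.ofFinite _
  -- elements of the derived subgroup
  have hpow : ∀ y ∈ ⁅E, E⁆, y ^ p = 1 := by
    intro y hy
    rw [Subgroup.commutator_def] at hy
    have hyz : ∀ y ∈ ⁅E, E⁆, ∀ g, g * y = y * g := fun y hy g =>
      Subgroup.mem_center_iff.mp (hEZ hy) g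
    refine Subgroup.closure_induction (p := fun y _ => y ^ p = 1) ?_ ?_ ?_ ?_ hy
    · rintro _ ⟨a, ha, b, hb, rfl⟩
      exact crit_comm hE ha hb
    · exact one_pow p
    · intro a b ha hb h2 h3
      have ha' : a ∈ ⁅E, E⁆ := by rw [Subgroup.commutator_def]; exact ha
      have : Commute a b := (hyz a ha' b).symm
      rw [this.mul_pow, h2, h3, one_mul]
    · intro a _ h2
      rw [inv_pow, h2, inv_one]
  have hcommZ : ∀ g, ∀ k ∈ ⁅Z, Z⁆, η (g * k) = η g := by
    intro g k hk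
    have h2 : ⁅Z, Z⁆ = ⊥ := by
      rw [eq_bot_iff, Subgroup.commutator_le]
      intro a ha b hb
      rw [Subgroup.mem_bot, commutatorElement_def, Subgroup.mem_center_iff.mp hb a]
      group
    rw [h2, Subgroup.mem_bot] at hk
    rw [hk, mul_one]
  -- the parts
  have hpart : ∀ μ : Z →* ℂˣ, (∃ y : Z, (y : X) ∈ ⁅E, E⁆ ∧ μ y ≠ 1) → part Z μ η = 0 := by
    rintro μ ⟨y, hy, hμy⟩
    have hμinv : ∀ (g : X) (w : Z), μ (MulAut.conjNormal g w) = μ w := by
      intro g w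
      congr 1
      apply Subtype.ext
      rw [MulAut.conjNormal_apply]
      have h1 := Subgroup.mem_center_iff.mp w.2 g
      rw [h1, mul_inv_cancel_right]
    have hy1 : y ^ p = 1 := Subtype.ext (by push_cast; exact hpow y hy)
    obtain ⟨z, hz⟩ := exists_ppart hE.cyc hE.prime hy1 hμy
    refine HA.part_zero hη hμinv ?_
    by_contra hne
    have h2 := res_count (W := Z) (fun a ha b hb => Subgroup.mem_center_iff.mp hb a) hE.prime hJ
      hsum hη hG h1 (y := y) (fun g => h0 g y hy) hd (M := p ^ m) (by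
        intro ν hν k hk hk0
        obtain ⟨k', hk', hk''⟩ := crit_part hE h1 ν hy hν
        rw [hk] at hk'
        have h4 : k = k' := by exact_mod_cast hk'
        rw [h4]
        exact hk'' (by rw [← h4]; exact hk0)) hy1 hμy hz hne
    omega
  intro x y hy
  rw [← sum_part Z hcommZ, ← sum_part Z hcommZ x]
  refine Finset.sum_congr rfl fun μ _ => ?_
  by_cases h : ∃ y : Z, (y : X) ∈ ⁅E, E⁆ ∧ μ y ≠ 1
  · rw [hpart μ h]
    rfl
  · push Not at h
    have h2 := part_mul_mem Z μ η x ⟨y, hEZ hy⟩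
    rw [h ⟨y, hEZ hy⟩ hy, Units.val_one, mul_one] at h2
    exact h2

/-- **Elements of prime order.** -/
theorem elem_J {X : Type} [Group X] [Finite X] {J : Set ℕ} {p d : ℕ} (hp : p.Prime)
    (hJ : ResQ J p p d) {s : ℕ} (hs : s < d) {x : X} (hx : x ^ p = 1) {η η₀ η₁ : X → ℂ}
    (hsum : η = η₀ + η₁) (hη : HA η) (hG : GSt J η) (h1 : HA η₁)
    (h0 : ∀ g, η₀ (g * x) = η₀ g) {s' : ℕ} (hs' : s' ≤ s) (hd : η₁ 1 = s') : η x = η 1 := by
  classical
  let A := Subgroup.zpowers x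
  have hAcomm : ∀ a ∈ A, ∀ b ∈ A, a * b = b * a := by
    rintro _ ⟨k, rfl⟩ _ ⟨l, rfl⟩
    exact ((Commute.refl x).zpow_zpow k l)
  have : Fintype (A →* ℂˣ) := Fintype.ofFinite _
  let y : A := ⟨x, Subgroup.mem_zpowers x⟩
  have hy1 : y ^ p = 1 := Subtype.ext hx
  have hzero : ∀ μ : A →* ℂˣ, μ y ≠ 1 → part A μ η 1 = 0 := by
    intro μ hμ
    by_contra hne
    have h2 := res_count hAcomm hp hJ hsum hη hG h1 (y := y) h0 hd
      (M := 1) (fun ν _ k _ hk0 => Nat.pos_of_ne_zero hk0) hy1 hμ (z := y) (by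
        have : Fact p.Prime := ⟨hp⟩
        exact orderOf_eq_prime (by rw [← map_pow, hy1, map_one]) hμ) hne
    omega
  have hcomm : ∀ g, ∀ k ∈ ⁅A, A⁆, η (g * k) = η g := by
    intro g k hk
    have h2 : ⁅A, A⁆ = ⊥ := by
      rw [eq_bot_iff, Subgroup.commutator_le]
      intro a ha b hb
      rw [Subgroup.mem_bot, commutatorElement_def, hAcomm a ha b hb]
      group
    rw [h2, Subgroup.mem_bot] at hk
    rw [hk, mul_one]
  rw [← sum_part A hcomm x, ← sum_part A hcomm 1]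
  refine Finset.sum_congr rfl fun μ _ => ?_
  have h2 := part_mul_mem A μ η 1 y
  rw [one_mul] at h2
  change part A μ η x = _ at h2
  rw [h2]
  by_cases h : μ y = 1
  · rw [h, Units.val_one, mul_one]
  · rw [hzero μ h, zero_mul]

end Pool.Agent.N28.DL
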