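import Mathlib
import Pool.Agent.N28.DJ.Rig
import Pool.Agent.N28.DJ.New

/-!
# Characters with nonnegative multiplicities
-/

set_option autoImplicit false
set_option linter.unusedSectionVars false

namespace Pool.Agent.N28.DL

open Pool.Agent.H302R2 Pool.Agent.H302R3 Pool.Agent.H541R3.ART Pool.Agent.W446.AS Pool.Agent.R389
  Pool.Agent.H302R5 Pool.Agent.H302R6

/-- a sum of irreducible characters -/
def Genu {G : Type} [Group G] (θ : G → ℂ) : Prop := θ ∈ AddSubmonoid.closure (Irr G)

variable {G : Type} [Group G] [Finite G] {θ : G → ℂ}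

lemma Genu.virt (h : Genu θ) : Virt θ := virt_of_closure h

lemma Genu.nat (h : Genu θ) : ∀ χ ∈ Irr G, ∃ k : ℕ, pr θ χ = k := by
  classical
  intro χ hχ
  induction h using AddSubmonoid.closure_induction with
  | mem ψ hψ =>
    by_cases h : ψ = χ
    · subst h
      exact ⟨1, by rw [pr_self hψ]; simp⟩
    · exact ⟨0, by rw [pr_ne hψ hχ h]; simp⟩
  | zero => exact ⟨0, by rw [pr_zero_left]; simp⟩
  | add a b _ _ ha hb =>
    obtain ⟨k, hk⟩ := ha
    obtain ⟨l, hl⟩ := hb
    exact ⟨k + l, by rw [pr_add, hk, hl]; push_cast; rfl⟩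

lemma genu_of_nat (hv : Virt θ) (h : ∀ χ ∈ Irr G, ∃ k : ℕ, pr θ χ = k) : Genu θ := by
  classical
  choose! k hk using h
  have h1 : θ = ∑ χ ∈ irrF G, k χ • χ := by
    funext g
    rw [hv.expand g, Finset.sum_apply]
    refine Finset.sum_congr rfl fun χ hχ => ?_
    rw [hk χ (mem_irrF.mp hχ)]
    simp
  rw [h1]
  exact sum_mem fun χ hχ => nsmul_mem (AddSubmonoid.subset_closure (mem_irrF.mp hχ)) _

lemma Genu.ha (h : Genu θ) : HA θ where
  conj := h.virt.conj
  nat U ψ := by
    induction h using AddSubmonoid.closure_induction with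
    | mem χ hχ =>
      obtain ⟨m, hm⟩ := ind_isDecomp U ψ
      exact ⟨m χ, by rw [pr_comm, hm.pr hχ]⟩
    | zero => exact ⟨0, by rw [pr_zero_left]; simp⟩
    | add a b _ _ ha hb =>
      obtain ⟨k, hk⟩ := ha
      obtain ⟨l, hl⟩ := hb
      exact ⟨k + l, by rw [pr_add, hk, hl]; push_cast; rfl⟩

lemma Genu.res (h : Genu θ) (H : Subgroup G) : Genu (fun x : H => θ x) := by
  induction h using AddSubmonoid.closure_induction with
  | mem χ hχ =>
    obtain ⟨n, ρ, -, rfl⟩ := exists_rep hχ
    exact char_memP n (ρ.comp H.subtype : Representation ℂ H (Fin n → ℂ)) (by simp)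
  | zero => exact zero_mem (AddSubmonoid.closure (Irr H))
  | add a b _ _ ha hb => exact add_mem ha hb

lemma push_zero [Fintype G] {X : Type} [Group X] [Finite X] (π : G →* X) :
    push π (0 : G → ℂ) = 0 := by
  funext x
  rw [push]
  simp

lemma push_add [Fintype G] {X : Type} [Group X] [Finite X] (π : G →* X) (a b : G → ℂ) :
    push π (a + b) = push π a + push π b := by
  classical
  funext x
  rw [Pi.add_apply, push, push, push, ← mul_add, ← Finset.sum_add_distrib]
  congr 1
  refine Finset.sum_congr rfl fun g _ => ?_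
  split_ifs with h
  · rfl
  · simp

lemma Genu.push [Fintype G] (h : Genu θ) {X : Type} [Group X] [Finite X] {π : G →* X}
    (hπ : Function.Surjective π) : Genu (push π θ) := by
  classical
  have hfk : Fintype π.ker := Fintype.ofFinite _
  induction h using AddSubmonoid.closure_induction with
  | mem χ hχ =>
    obtain ⟨n, ρ, hρ, rfl⟩ := exists_rep hχ
    rcases hρ.normal_dich π.ker with h6 | h6
    · obtain ⟨ψ, hψ, h2⟩ := descend_irr hπ hρ h6
      have h3 : Pool.Agent.H302R5.push π ρ.character = ψ := by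
        funext x
        obtain ⟨g, rfl⟩ := hπ x
        rw [push_apply]
        have h4 : ∀ k : π.ker, ρ.character (g * k) = ψ (π g) := by
          intro k
          rw [h2, map_mul, (MonoidHom.mem_ker).mp k.2, mul_one]
        rw [Finset.sum_congr rfl (fun k _ => h4 k), Finset.sum_const, Finset.card_univ,
          nsmul_eq_mul, ← Nat.card_eq_fintype_card, ← mul_assoc, inv_mul_cancel₀ card_ne, one_mul]
      rw [h3]
      exact AddSubmonoid.subset_closure hψ
    · have h3 : Pool.Agent.H302R5.push π ρ.character = 0 := by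
        funext x
        obtain ⟨g, rfl⟩ := hπ x
        rw [push_apply, h6 g, mul_zero]
        rfl
      rw [h3]
      exact zero_mem (AddSubmonoid.closure (Irr X))
  | zero =>
    rw [push_zero]
    exact zero_mem (AddSubmonoid.closure (Irr X))
  | add a b _ _ ha hb =>
    rw [push_add]
    exact add_mem ha hb

lemma Genu.inv (h : Genu θ) (R : Subgroup G) [R.Normal] :
    Genu (inv R θ) ∧ Genu (θ - inv R θ) := by
  classical
  induction h using AddSubmonoid.closure_induction with
  | mem χ hχ =>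
    rcases irr_inv R hχ with h | h
    · rw [inv_of_const R h]
      refine ⟨AddSubmonoid.subset_closure hχ, ?_⟩
      rw [sub_self]
      exact zero_mem (AddSubmonoid.closure (Irr G))
    · rw [h.2]
      refine ⟨zero_mem (AddSubmonoid.closure (Irr G)), ?_⟩
      rw [sub_zero]
      exact AddSubmonoid.subset_closure hχ
  | zero =>
    have h0 : Pool.Agent.R389.inv R (0 : G → ℂ) = 0 := map_zero (invHom R)
    rw [h0, sub_zero]
    exact ⟨zero_mem (AddSubmonoid.closure (Irr G)), zero_mem (AddSubmonoid.closure (Irr G))⟩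
  | add a b _ _ ha hb =>
    have h0 : Pool.Agent.R389.inv R (a + b) = Pool.Agent.R389.inv R a + Pool.Agent.R389.inv R b :=
      map_add (invHom R) a b
    rw [h0]
    refine ⟨add_mem ha.1 hb.1, ?_⟩
    have h1 : a + b - (Pool.Agent.R389.inv R a + Pool.Agent.R389.inv R b)
        = (a - Pool.Agent.R389.inv R a) + (b - Pool.Agent.R389.inv R b) := by abel
    rw [h1]
    exact add_mem ha.2 hb.2

/-- the kernel of a character -/
lemma Genu.ker (h : Genu θ) {y : G} (hy : θ y = θ 1) : ∀ g, θ (g * y) = θ g := by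
  classical
  intro g
  rw [h.virt.expand, h.virt.expand]
  refine Finset.sum_congr rfl fun χ hχ => ?_
  have hχ' := mem_irrF.mp hχ
  by_cases hne : pr θ χ = 0
  · rw [hne, zero_mul, zero_mul]
  · have h1 := Pool.Agent.TH820.char_ker_of_pos h.virt h.nat hy hχ' hne
    obtain ⟨n, ρ, hρ, rfl⟩ := exists_rep hχ'
    have h2 := Pool.Agent.TH820.rep_ker ρ hρ h1
    congr 1
    change LinearMap.trace ℂ _ (ρ (g * y)) = LinearMap.trace ℂ _ (ρ g)
    rw [map_mul, h2, mul_one]

/-- characters of small degree -/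
lemma Genu.small {T : Type} [Group T] [Finite T] {η : T → ℂ} (h : Genu η) {s : ℕ} (hs : η 1 = s)
    (hT : ∀ χ ∈ Irr T, (∃ t, χ t ≠ 1) → ∀ d : ℕ, χ 1 = d → s < d) : ∀ t, η t = η 1 := by
  classical
  have hmul : ∀ χ ∈ irrF T, (∃ t, χ t ≠ 1) → pr η χ = 0 := by
    intro χ hχ hne
    have hχ' := mem_irrF.mp hχ
    obtain ⟨k, hk⟩ := h.nat χ hχ'
    obtain ⟨d, hd0, hd⟩ := irr_deg_pos hχ'
    by_contra hne0
    have hk0 : k ≠ 0 := by
      rintro rfl
      exact hne0 (by rw [hk]; simp)
    have h1 := hT χ hχ' hne d hd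
    have h2 := h.nat
    choose! kk hkk using h2
    choose! dd hdd hdd' using fun χ (hχ : χ ∈ Irr T) => irr_deg_pos hχ
    have h3 : (s : ℂ) = ((∑ ψ ∈ irrF T, kk ψ * dd ψ : ℕ) : ℂ) := by
      rw [← hs, h.virt.expand, Nat.cast_sum]
      refine Finset.sum_congr rfl fun ψ hψ => ?_
      rw [hkk ψ (mem_irrF.mp hψ), hdd' ψ (mem_irrF.mp hψ)]
      push_cast
      rfl
    have h4 : s = ∑ ψ ∈ irrF T, kk ψ * dd ψ := by exact_mod_cast h3
    have h5 : kk χ * dd χ ≤ s := by
      rw [h4]
      exact Finset.single_le_sum (f := fun ψ => kk ψ * dd ψ) (fun _ _ => Nat.zero_le _) hχ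
    have h6 : kk χ = k := by
      have := hkk χ hχ'
      rw [hk] at this
      exact_mod_cast this.symm
    have h7 : dd χ = d := by
      have := hdd' χ hχ'
      rw [hd] at this
      exact_mod_cast this.symm
    rw [h6, h7] at h5
    have h8 : d ≤ k * d := Nat.le_mul_of_pos_left d (Nat.pos_of_ne_zero hk0)
    omega
  intro t
  rw [h.virt.expand, h.virt.expand 1]
  refine Finset.sum_congr rfl fun χ hχ => ?_
  by_cases hne : ∃ t, χ t ≠ 1
  · rw [hmul χ hχ hne, zero_mul, zero_mul]
  · push Not at hne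
    rw [hne, hne]

end Pool.Agent.N28.DL
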