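import Mathlib
import Pool.Agent.N28.DJ.Genu
import Pool.Agent.N28.DJ.Comp
import Pool.Agent.N28.DL.Chain

/-!
# Bounds which exclude new zeros in primitive sections
-/

set_option autoImplicit false
set_option linter.unusedSectionVars false

namespace Pool.Agent.N28.DL

open Pool.Agent.H302R2 Pool.Agent.H302R3 Pool.Agent.H541R3.ART Pool.Agent.W446.AS Pool.Agent.R389
  Pool.Agent.H302R5 Pool.Agent.H302R6

/-- `X` is a section of `G` -/
def IsSec (G X : Type) [Group G] [Group X] : Prop :=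
  ∃ (H : Subgroup G) (q : H →* X), Function.Surjective q

/-- the normal subgroup of the elements under which a class function is invariant -/
lemma inv_nclosure {X : Type} [Group X] {η : X → ℂ} (hc : ∀ g x : X, η (x * g * x⁻¹) = η g)
    {S : Set X} (hS : ∀ y ∈ S, ∀ x, η (x * y) = η x) :
    ∀ x, ∀ y ∈ Subgroup.normalClosure S, η (x * y) = η x := by
  let K : Subgroup X :=
    { carrier := {y | ∀ x, η (x * y) = η x}
      one_mem' := fun x => by rw [mul_one]
      mul_mem' := by
        intro a b ha hb x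
        rw [← mul_assoc, hb, ha]
      inv_mem' := by
        intro a ha x
        have := ha (x * a⁻¹)
        rw [inv_mul_cancel_right] at this
        exact this.symm }
  have hK : K.Normal := by
    refine ⟨fun a ha g x => ?_⟩
    have h1 := ha (g⁻¹ * x * g)
    have h2 := hc (g⁻¹ * x * g * a) g
    have h3 := hc (g⁻¹ * x * g) g
    have e2 : g * (g⁻¹ * x * g * a) * g⁻¹ = x * (g * a * g⁻¹) := by group
    have e3 : g * (g⁻¹ * x * g) * g⁻¹ = x := by group
    rw [e2] at h2
    rw [e3] at h3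
    rw [h2, h1, h3]
  have h1 : Subgroup.normalClosure S ≤ K := Subgroup.normalClosure_le_normal hS
  intro x y hy
  exact h1 hy x

section prim

variable {X : Type} [Group X] [Finite X]

/-- properties of primitive linear groups -/
lemma Prim.props (h : Prim X) : IsCyclic (Subgroup.center X) ∧
    (∀ A : Subgroup X, A.Normal → (∀ a ∈ A, ∀ b ∈ A, a * b = b * a) → A ≤ Subgroup.center X) ∧
    ∃ a b : X, a * b ≠ b * a := by
  classical
  obtain ⟨ψ, hψ, h1, h2, h3⟩ := h
  obtain ⟨n, σ, hσ, rfl⟩ := exists_rep hψ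
  have hf : ∀ x, σ x = 1 → x = 1 := by
    intro x hx
    apply h2
    change LinearMap.trace ℂ _ (σ x) = LinearMap.trace ℂ _ (σ 1)
    rw [hx, map_one σ]
  refine ⟨?_, ?_, ?_⟩
  · obtain ⟨ω, hω⟩ := hσ.central
    have hωi : Function.Injective ω := by
      rw [injective_iff_map_eq_one]
      intro z hz
      apply Subtype.ext
      apply hf
      refine LinearMap.ext fun v => ?_
      rw [hω z v, hz, Units.val_one, one_smul, Module.End.one_apply]
    exact isCyclic_of_injective_ringHom ((Units.coeHom ℂ).comp ω) (Units.val_injective.comp hωi)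
  · intro A hAn hA
    by_contra hc
    obtain ⟨H, hH, φ, hφ, hφ1⟩ := clifford_char hσ hf A (fun a b => Subtype.ext
      (hA a a.2 b b.2)) hc
    exact h3 H φ hH hφ hφ1
  · by_contra hcon
    push Not at hcon
    obtain ⟨μ, v₀, hv₀, hμ⟩ := exists_weight hcon σ hσ.1
    have h4 : Submodule.span ℂ {v₀} = ⊤ := by
      rcases hσ.2 (Submodule.span ℂ {v₀}) (by
        intro g v hv
        obtain ⟨a, rfl⟩ := Submodule.mem_span_singleton.mp hv
        rw [map_smul, hμ]
        exact Submodule.smul_mem _ _ (Submodule.smul_mem _ _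
          (Submodule.mem_span_singleton_self _)))
        with h | h
      · exact absurd (Submodule.span_singleton_eq_bot.mp h) hv₀
      · exact h
    apply h1
    rw [Representation.char_one]
    have h5 := finrank_top ℂ (Fin n → ℂ)
    rw [← h4, finrank_span_singleton hv₀] at h5
    rw [← h5]
    simp

end prim

/-- the commutators of a critical subgroup come from a `p`-subgroup -/
theorem crit_der {G : Type} [Group G] [Finite G] {H : Subgroup G} {X : Type} [Group X] [Finite X]
    {q : H →* X} (hq : Function.Surjective q) {E : Subgroup X} {p n : ℕ} (hE : Crit X E p n) :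
    ⁅E, E⁆ ≠ ⊥ ∧ ⁅E, E⁆ ≤ ((derP p (⊤ : Subgroup G)).subgroupOf H).map q := by
  classical
  have hEn := hE.normal
  let Z := Subgroup.center X
  have hZpos : 0 < Nat.card Z := Nat.card_pos
  obtain ⟨x, hx, y, hy, hxy⟩ : ∃ x ∈ E, ∃ y ∈ E, x * y ≠ y * x := by
    by_contra hcon
    push Not at hcon
    have h2 : E ≤ Z := hE.abel E hEn hcon
    have h3 : E = Z := le_antisymm h2 hE.le
    have h4 := hE.card
    rw [h3] at h4
    have h6 : 1 < p ^ (2 * n) := Nat.one_lt_pow (by have := hE.pos; omega) hE.prime.one_lt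
    have h7 : Nat.card Z = p ^ (2 * n) * Nat.card Z := h4
    nlinarith
  have hxy1 : x * y * x⁻¹ * y⁻¹ ≠ 1 := fun h => hxy (by
    have := congrArg (fun t => t * y * x) h
    simpa [mul_assoc] using this)
  refine ⟨?_, ?_⟩
  · intro h
    apply hxy1
    have h1 := Subgroup.commutator_mem_commutator hx hy
    rw [h, Subgroup.mem_bot, commutatorElement_def] at h1
    exact h1
  · obtain ⟨a, rfl⟩ := hq x
    obtain ⟨b, rfl⟩ := hq y
    let M : Subgroup H := E.comap q
    let f : M →* X := q.comp M.subtype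
    obtain ⟨Q, m, hQ, hm, u, hu, v, hv, huv⟩ := exists_nonab f hE.prime (fun c d => by
      change q (((c * d * c⁻¹ * d⁻¹ : M)) : H) ∈ Z
      rw [Subgroup.coe_mul, Subgroup.coe_mul, Subgroup.coe_mul, map_mul, map_mul, map_mul,
        Subgroup.coe_inv, Subgroup.coe_inv, map_inv, map_inv]
      exact hE.comm _ c.2 _ d.2) ⟨a, hx⟩ ⟨b, hy⟩
    let g : M →* G := H.subtype.comp M.subtype
    have hw : f (⟨a, hx⟩ * ⟨b, hy⟩ * (⟨a, hx⟩ : M)⁻¹ * (⟨b, hy⟩ : M)⁻¹)
        = q a * q b * (q a)⁻¹ * (q b)⁻¹ := by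
      change q (a * b * a⁻¹ * b⁻¹) = _
      rw [map_mul, map_mul, map_mul, map_inv, map_inv]
    rw [hw] at huv
    have hwp := crit_comm hE hx hy
    have hw2 : (q a * q b * (q a)⁻¹ * (q b)⁻¹) ^ m ≠ 1 := by
      intro h2
      have h3 : orderOf (q a * q b * (q a)⁻¹ * (q b)⁻¹) = p := by
        have : Fact p.Prime := ⟨hE.prime⟩
        exact orderOf_eq_prime hwp hxy1
      have h4 := orderOf_dvd_of_pow_eq_one h2
      rw [h3] at h4
      exact hm h4
    have hwE : f (u * v * u⁻¹ * v⁻¹) ∈ ((derP p (⊤ : Subgroup G)).subgroupOf H).map q := by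
      refine ⟨((u * v * u⁻¹ * v⁻¹ : M) : H), ?_, rfl⟩
      have h2 : ⁅Q.map g, Q.map g⁆ ≤ derP p (⊤ : Subgroup G) := derP_le le_top (hQ.map g)
      apply h2
      have h3 := Subgroup.commutator_mem_commutator (H₁ := Q.map g) (H₂ := Q.map g)
        ⟨u, hu, rfl⟩ ⟨v, hv, rfl⟩
      rw [commutatorElement_def] at h3
      exact h3
    rw [huv] at hwE
    have hcycE : IsCyclic Z := hE.cyc
    have hwZ : q a * q b * (q a)⁻¹ * (q b)⁻¹ ∈ Z := hE.comm _ hx _ hy
    have hEle : ∀ c ∈ E, ∀ d ∈ E, c * d * c⁻¹ * d⁻¹ ∈ Subgroup.zpowers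
        ((q a * q b * (q a)⁻¹ * (q b)⁻¹) ^ m) := by
      intro c hc d hd
      have hcd : c * d * c⁻¹ * d⁻¹ ∈ Z := hE.comm c hc d hd
      have h2 := mem_zpowers_of_cyclic hcycE hE.prime
        (w := (⟨q a * q b * (q a)⁻¹ * (q b)⁻¹, hwZ⟩ : Z) ^ m) (y := ⟨c * d * c⁻¹ * d⁻¹, hcd⟩) (by
          rw [← pow_mul, mul_comm, pow_mul]
          have h3 : (⟨q a * q b * (q a)⁻¹ * (q b)⁻¹, hwZ⟩ : Z) ^ p = 1 := Subtype.ext hwp
          rw [h3, one_pow]) (fun h3 => hw2 (congrArg Subtype.val h3))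
        (Subtype.ext (crit_comm hE hc hd))
      obtain ⟨k, hk⟩ := Subgroup.mem_zpowers_iff.mp h2
      exact ⟨k, congrArg Subtype.val hk⟩
    rw [Subgroup.commutator_le]
    intro c hc d hd
    rw [commutatorElement_def]
    exact (Subgroup.zpowers_le.mpr hwE) (hEle c hc d hd)

/-- the subgroup generated by the elements of `p`-power order -/
def pgen (p : ℕ) (G : Type) [Group G] : Subgroup G := Subgroup.closure {x | ∃ k : ℕ, x ^ p ^ k = 1}

lemma pgen_normal (p : ℕ) (G : Type) [Group G] : (pgen p G).Normal := by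
  refine ⟨fun x hx g => ?_⟩
  have h1 : (pgen p G).map (MulAut.conj g).toMonoidHom ≤ pgen p G := by
    rw [pgen, MonoidHom.map_closure, Subgroup.closure_le]
    rintro _ ⟨y, ⟨k, hk⟩, rfl⟩
    refine Subgroup.subset_closure ⟨k, ?_⟩
    change (MulAut.conj g y) ^ p ^ k = 1
    rw [← map_pow, hk, map_one]
  exact h1 ⟨x, hx, rfl⟩

/-- elements of order `p` come from elements of `p`-power order -/
lemma lift_prime {G : Type} [Group G] [Finite G] {H : Subgroup G} {X : Type} [Group X]
    {q : H →* X} (hq : Function.Surjective q) {p : ℕ} (hp : p.Prime) {x : X} (hx : x ^ p = 1) :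
    x ∈ ((pgen p G).subgroupOf H).map q := by
  classical
  obtain ⟨h, rfl⟩ := hq x
  have ho : orderOf h ≠ 0 := (orderOf_pos h).ne'
  set a := (orderOf h).factorization p with ha
  set m := orderOf h / p ^ a with hm
  have hmo : p ^ a * m = orderOf h := Nat.mul_div_cancel' (Nat.ordProj_dvd _ _)
  have hcop : Nat.Coprime m p := ((Nat.Prime.coprime_iff_not_dvd hp).mpr
    (Nat.not_dvd_ordCompl hp ho)).symm
  obtain ⟨t, ht1, ht2⟩ := Nat.chineseRemainder hcop 0 1
  refine ⟨h ^ t, ?_, ?_⟩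
  · refine Subgroup.subset_closure ⟨a, ?_⟩
    obtain ⟨l, hl⟩ := (Nat.modEq_zero_iff_dvd).mp ht1
    have h1 : (h ^ t) ^ p ^ a = 1 := by
      rw [← pow_mul, hl]
      have h2 : m * l * p ^ a = orderOf h * l := by rw [← hmo]; ring
      rw [h2, pow_mul, pow_orderOf_eq_one, one_pow]
    exact congrArg Subtype.val h1
  · rw [map_pow]
    have h1 : t % p = 1 % p := ht2
    rw [Nat.mod_eq_of_lt hp.one_lt] at h1
    rw [← Nat.div_add_mod t p, h1, pow_add, pow_mul, hx, one_pow, one_mul, pow_one]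

/-- perfect subgroups of sections come from the derived series -/
lemma perfect_le {G : Type} [Group G] {H : Subgroup G} {X : Type} [Group X] {q : H →* X}
    (hq : Function.Surjective q) {T : Subgroup X} (hT : ⁅T, T⁆ = T) (k : ℕ) :
    T ≤ ((derivedSeries G k).subgroupOf H).map q := by
  induction k with
  | zero =>
    intro x _
    obtain ⟨h, rfl⟩ := hq x
    exact ⟨h, Subgroup.mem_top _, rfl⟩
  | succ k ih =>
    rw [← hT]
    refine (Subgroup.commutator_mono ih ih).trans ?_
    rw [← Subgroup.map_commutator]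
    refine Subgroup.map_mono ?_
    rw [Subgroup.commutator_le]
    intro a ha b hb
    rw [commutatorElement_def, Subgroup.mem_subgroupOf, derivedSeries_succ]
    have h1 := Subgroup.commutator_mem_commutator (H₁ := derivedSeries G k)
      (H₂ := derivedSeries G k) ha hb
    rw [commutatorElement_def] at h1
    exact h1

section main

variable {G : Type} [Group G] [Finite G] {θ : G → ℂ}

/-- the decomposition of the part of `θ` in a section -/
lemma decomp {J : Set ℕ} (hθ : Genu θ) (hG : GSt J θ) {H : Subgroup G} [Fintype H] {X : Type}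
    [Group X] [Finite X] {q : H →* X} (hq : Function.Surjective q) {R : Subgroup G}
    (hR : R.Normal) {s : ℕ} (hs : ∀ s' : ℕ, (θ - inv R θ) 1 = s' → s' ≤ s) :
    ∃ η₀ η₁ : X → ℂ, push q (fun x : H => θ x) = η₀ + η₁ ∧ Genu (push q (fun x : H => θ x)) ∧
      GSt J (push q (fun x : H => θ x)) ∧ Genu η₁ ∧
      (∀ x, ∀ y ∈ (R.subgroupOf H).map q, η₀ (x * y) = η₀ x) ∧
      ∃ s'' : ℕ, s'' ≤ s ∧ η₁ 1 = s'' := by
  classical
  have hfk : Fintype q.ker := Fintype.ofFinite _
  have hHθ : Genu (fun x : H => θ x) := hθ.res H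
  have hP : Genu (push q (fun x : H => θ x)) := hHθ.push hq
  obtain ⟨h1, h2⟩ := hθ.inv R
  obtain ⟨s', hs'⟩ := HA.exists_deg h2.ha
  have hA1 : Genu (fun x : H => (θ - inv R θ) x) := h2.res H
  refine ⟨push q (fun x : H => inv R θ x), push q (fun x : H => (θ - inv R θ) x), ?_, hP,
    (hG.res hθ.ha.conj H).push hq hP.ha.conj, hA1.push hq, ?_, ?_⟩
  · rw [← push_add]
    congr 1
    funext x
    simp
  · intro x y hy
    obtain ⟨g, rfl⟩ := hq x
    obtain ⟨k, hk, rfl⟩ := hy
    rw [← map_mul, push_apply, push_apply]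
    congr 1
    rw [← Equiv.sum_comp (MulAut.conjNormal k).toEquiv (fun n : q.ker => inv R θ ((g * n : H) : G))]
    refine Finset.sum_congr rfl fun n _ => ?_
    change _ = inv R θ ((g * ((MulAut.conjNormal k n : q.ker) : H) : H) : G)
    rw [MulAut.conjNormal_apply, ← inv_mul_mem R θ ((g * (k * n * k⁻¹) : H) : G) (k := (k : G)) hk]
    congr 1
    push_cast
    group
  · obtain ⟨s'', h3, h4⟩ := push_one_nat_le hq (heil_of hA1.ha) (r := s') hs'
    exact ⟨s'', h3.trans (hs s' hs'), h4⟩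

/-- **The bounds.** -/
theorem oldSec_of_bounds {J : Set ℕ} (hθ : Genu θ) (hG : GSt J θ) {dd : ℕ → ℕ}
    (hJ : ∀ p q : ℕ, p.Prime → p ∣ q → q ∣ Monoid.exponent G → ResQ J p q (dd q))
    {sE sF : ℕ → ℕ} {sC k : ℕ}
    (hsE : ∀ p : ℕ, p.Prime → ∀ s' : ℕ, (θ - inv (pgen p G) θ) 1 = s' → s' ≤ sE p)
    (hsF : ∀ p : ℕ, p.Prime → ∀ s' : ℕ, (θ - inv (derP p (⊤ : Subgroup G)) θ) 1 = s' → s' ≤ sF p)
    (hsC : ∀ s' : ℕ, (θ - inv (derivedSeries G k) θ) 1 = s' → s' ≤ sC)
    (hF : ∀ (X : Type) [Group X] [Finite X], IsSec G X → Prim X →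
      (∀ p : ℕ, p.Prime → p ∣ Nat.card X → dd p ≤ sE p) →
      ∀ (E : Subgroup X) (p n : ℕ), Crit X E p n →
        sF p < dd (p ^ (Nat.card (Subgroup.center X)).factorization p) * p ^ n)
    (hC : ∀ (T : Type) [Group T] [Finite T], IsSec G T →
      (∀ p : ℕ, p.Prime → p ∣ Nat.card T → dd p ≤ sE p) → QSimple T →
      ∀ χ ∈ Irr T, (∃ t, χ t ≠ 1) → ∀ d : ℕ, χ 1 = d → sC < d) : OldSec θ := by
  classical
  intro H X _ _ q hq hX
  obtain ⟨hcyc, hab, hne⟩ := hX.props
  have : Fintype H := Fintype.ofFinite H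
  have hX' : Finite X := inferInstance
  -- it suffices to find `Y` for the push forward
  suffices h : ∃ Y : Subgroup X, Y.Normal ∧ Y ≠ ⊥ ∧
      ∀ x, ∀ y ∈ Y, push q (fun x : H => θ x) (x * y) = push q (fun x : H => θ x) x by
    obtain ⟨Y, h1, h2, h3⟩ := h
    refine ⟨Y, h1, h2, fun a b hb => ?_⟩
    rw [← push_inv, ← push_inv, map_mul]
    exact h3 _ _ hb
  have hexpX : ∀ x : X, orderOf x ∣ Monoid.exponent G := by
    intro x
    obtain ⟨h, rfl⟩ := hq x
    refine (orderOf_map_dvd q h).trans ?_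
    rw [← Subgroup.orderOf_coe]
    exact Monoid.order_dvd_exponent _
  -- primes with many conjugate roots of unity
  by_cases hsmall : ∀ p : ℕ, p.Prime → p ∣ Nat.card X → dd p ≤ sE p
  swap
  · push Not at hsmall
    obtain ⟨p, hp, hpX, hdp⟩ := hsmall
    have : Fact p.Prime := ⟨hp⟩
    obtain ⟨x, hx⟩ := exists_prime_orderOf_dvd_card' p hpX
    have hx1 : x ^ p = 1 := by rw [← hx, pow_orderOf_eq_one]
    obtain ⟨η₀, η₁, h1, h2, h3, h4, h5, s'', h6, h7⟩ := decomp hθ hG hq (pgen_normal p G)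
      (hsE p hp)
    have h8 := elem_J hp (hJ p p hp dvd_rfl (by rw [← hx]; exact hexpX x)) hdp hx1 h1 h2.ha h3
      h4.ha (fun g => h5 g x (lift_prime hq hp hx1)) h6 h7
    refine ⟨Subgroup.normalClosure {x}, inferInstance, ?_,
      inv_nclosure h2.ha.conj (fun y hy => ?_)⟩
    · intro h
      have h9 : x ∈ Subgroup.normalClosure {x} := Subgroup.subset_normalClosure rfl
      rw [h, Subgroup.mem_bot] at h9
      rw [h9, orderOf_one] at hx
      exact hp.one_lt.ne hx
    · rw [Set.mem_singleton_iff] at hy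
      rw [hy]
      exact h2.ker h8
  -- a minimal normal subgroup above the centre
  let Z := Subgroup.center X
  have hZtop : (⊤ : Subgroup X) ≠ Z := by
    intro h
    obtain ⟨a, b, hab'⟩ := hne
    apply hab'
    have h1 : b ∈ Z := by rw [← h]; exact Subgroup.mem_top b
    exact Subgroup.mem_center_iff.mp h1 a
  let P : Set (Subgroup X) := {M | M.Normal ∧ Z ≤ M ∧ M ≠ Z}
  have hP : (⊤ : Subgroup X) ∈ P := ⟨inferInstance, le_top, hZtop⟩
  obtain ⟨F, hFP, hFmin⟩ := (Set.toFinite P).exists_minimal ⟨⊤, hP⟩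
  obtain ⟨hFn, hZF, hFZ⟩ := hFP
  have hmin : ∀ M : Subgroup X, M.Normal → Z ≤ M → M ≤ F → M = Z ∨ M = F := by
    intro M h1 h2 h3
    by_cases h : M = Z
    · exact Or.inl h
    · exact Or.inr (le_antisymm h3 (hFmin ⟨h1, h2, h⟩ h3))
  by_cases hFc : ∀ x ∈ F, ∀ y ∈ F, x * y * x⁻¹ * y⁻¹ ∈ Subgroup.center X
  · -- frames
    obtain ⟨E, p, n, hEF, hE⟩ := exists_crit_le hab hcyc hFn hZF hFZ hFc
    have hEn := hE.normal
    obtain ⟨h0, hder⟩ := crit_der hq hE
    obtain ⟨η₀, η₁, h1, h2, h3, h4, h5, s'', h6, h7⟩ := decomp hθ hG hq (derP_normal p _)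
      (hsF p hE.prime)
    -- the order of the centre
    have hpZ : p ∣ Nat.card Z := by
      -- some commutator is nontrivial
      obtain ⟨x, hx, y, hy, hxy⟩ : ∃ x ∈ E, ∃ y ∈ E, x * y * x⁻¹ * y⁻¹ ≠ 1 := by
        by_contra hcon
        push Not at hcon
        apply h0
        rw [eq_bot_iff, Subgroup.commutator_le]
        intro x hx y hy
        rw [Subgroup.mem_bot, commutatorElement_def]
        exact hcon x hx y hy
      have : Fact p.Prime := ⟨hE.prime⟩
      have h8 : orderOf (⟨x * y * x⁻¹ * y⁻¹, hE.comm x hx y hy⟩ : Z) = p := by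
        refine orderOf_eq_prime (Subtype.ext (crit_comm hE hx hy)) ?_
        intro h
        exact hxy (congrArg Subtype.val h)
      rw [← h8]
      exact orderOf_dvd_natCard _
    have hexp : p ^ (Nat.card Z).factorization p ∣ Monoid.exponent G := by
      obtain ⟨g, hg⟩ := hcyc.exists_generator
      have hog : orderOf g = Nat.card Z := orderOf_eq_card_of_forall_mem_zpowers hg
      refine (Nat.ordProj_dvd _ _).trans ?_
      rw [← hog, ← Subgroup.orderOf_coe]
      exact hexpX _
    have hpq : p ∣ p ^ (Nat.card Z).factorization p :=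
      dvd_pow_self p (hE.prime.factorization_pos_of_dvd Nat.card_pos.ne' hpZ).ne'
    exact ⟨⁅E, E⁆, inferInstance, h0, crit_rigJ hE (hJ p _ hE.prime hpq hexp)
      (hF X ⟨H, q, hq⟩ hX hsmall E p n hE) _ η₀ η₁ h1 h2.ha h3 h4.ha
      (fun x y hy => h5 x y (hder hy)) s'' h6 h7⟩
  · -- components
    obtain ⟨T, hTF, hTT, hTq⟩ := exists_comp hFn hZF hmin hFc
    obtain ⟨η₀, η₁, h1, h2, h3, h4, h5, s'', h6, h7⟩ := decomp hθ hG hq
      (inferInstance : (derivedSeries G k).Normal) hsC
    have hTsec : IsSec G T := by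
      let H' : Subgroup G := (T.comap q).map H.subtype
      let e : H' ≃* T.comap q :=
        ((T.comap q).equivMapOfInjective H.subtype H.subtype_injective).symm
      let q' : T.comap q →* T :=
        { toFun := fun h => ⟨q h, h.2⟩
          map_one' := by apply Subtype.ext; simp
          map_mul' := by intro a b; apply Subtype.ext; simp }
      refine ⟨H', q'.comp e.toMonoidHom, ?_⟩
      have hq' : Function.Surjective q' := by
        rintro ⟨t, ht⟩
        obtain ⟨h, rfl⟩ := hq t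
        exact ⟨⟨h, ht⟩, rfl⟩
      exact hq'.comp e.surjective
    have hTle := perfect_le hq hTT k
    have hT1 : Genu (fun t : T => η₁ t) := h4.res T
    have h8 := hT1.small (s := s'') (by rw [← h7]; rfl) (fun χ hχ hne d hd =>
      lt_of_le_of_lt h6 (hC T hTsec (fun p hp hpT => hsmall p hp
        (hpT.trans T.card_subgroup_dvd_card)) hTq χ hχ hne d hd))
    have h9 : ∀ t ∈ T, push q (fun x : H => θ x) t = push q (fun x : H => θ x) 1 := by
      intro t ht
      rw [h1, Pi.add_apply, Pi.add_apply]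
      have e0 : η₀ t = η₀ 1 := by
        have := h5 1 t (hTle ht)
        rwa [one_mul] at this
      have e1 : η₁ t = η₁ 1 := h8 ⟨t, ht⟩
      rw [e0, e1]
    refine ⟨Subgroup.normalClosure (T : Set X), inferInstance, ?_,
      inv_nclosure h2.ha.conj (fun y hy => h2.ker (h9 y hy))⟩
    intro h
    obtain ⟨⟨t, ht⟩, ht1⟩ := hTq.1
    have h10 : t ∈ Subgroup.normalClosure (T : Set X) := Subgroup.subset_normalClosure ht
    rw [h, Subgroup.mem_bot] at h10
    exact ht1 (Subtype.ext h10)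

end main

end Pool.Agent.N28.DL
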