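import Mathlib
import Pool.Agent.N28.DJ.New

/-!
# Deligne's conjecture when there are no new zeros in primitive extensions
-/

set_option autoImplicit false
set_option linter.unusedSectionVars false

namespace Pool.Agent.N28.DL

open Pool.Agent.H302R2 Pool.Agent.H302R3 Pool.Agent.H541R3.ART Pool.Agent.W446.AS Pool.Agent.R389
  Pool.Agent.H302R5 Pool.Agent.H302R6 Filter Topology

variable {G : Type} [Group G] [Finite G] {θ : G → ℂ}

lemma pr_sub (hA : HA θ) (H : Subgroup G) (K : Subgroup H) :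
    pr (fun x : H => θ x) (ind K (fun _ => (1 : ℂ)))
      = pr θ (ind (K.map H.subtype) (fun _ => (1 : ℂ))) := by
  rw [← frob' H _ hA.conj, ind_ind]
  rfl

/-- the condition on the orders -/
theorem oldSec_of_orders (hA : HA θ)
    (h : ∀ (H : Subgroup G) (X : Type) [Group X] (q : H →* X), Function.Surjective q →
      Prim X → ∃ Y : Subgroup X, Y.Normal ∧ Y ≠ ⊥ ∧
        pr θ (ind ((Y.comap q).map H.subtype) (fun _ => (1 : ℂ)))
          = pr θ (ind (q.ker.map H.subtype) (fun _ => (1 : ℂ)))) : OldSec θ := by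
  classical
  intro H X _ _ q hq hX
  obtain ⟨Y, hYn, hY0, hY⟩ := h H X q hq hX
  refine ⟨Y, hYn, hY0, ?_⟩
  have : Fintype H := Fintype.ofFinite H
  have hAH : HA (fun x : H => θ x) := hA.res H
  have hP : IsHeilbronn (push q (fun x : H => θ x)) := push_isHeilbronn hq (heil_of hAH)
  have h1 : inv Y (push q (fun x : H => θ x)) 1 = push q (fun x : H => θ x) 1 := by
    have e1 : push q (fun x : H => θ x) 1 = pr θ (ind (q.ker.map H.subtype) (fun _ => (1 : ℂ))) := by
      rw [← pr_sub hA, ← inv_one_eq hAH, ← map_one q, push_inv]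
    rw [inv_one_eq (ha_of hP), pr_push hq, e1, ← hY, ← pr_sub hA]
    congr 1
    exact ind_comap hq _ _
  have h2 := inv_of_deg hP Y h1
  intro a b hb
  rw [← push_inv, ← push_inv, map_mul]
  exact h2 _ _ hb

variable {E : Type} [Field E]
  {L : (E →+* ℂ) → (G → ℂ) → ℂ → ℂ} {P : (E →+* ℂ) → (G → ℂ) → ℂ} {c : ℂ}

/-- **Deligne's conjecture when there are no new zeros in primitive extensions.** -/
theorem main_newsec {ζ : E} (hζ : IsPrimitiveRoot ζ (Monoid.exponent G))
    (hL : ∀ τ, ∀ χ ∈ Irr G, MeromorphicAt (L τ χ) c ∧ meromorphicOrderAt (L τ χ) c ≠ ⊤)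
    (hP : ∀ τ, ∀ χ ∈ Irr G, P τ χ ≠ 0)
    (hmon : ∀ (U : Subgroup G) (ψ : U →* Eˣ),
      Deligne L P c (ind U (fun u => ((ψ u : Eˣ) : E)))) (τ₀ : E →+* ℂ)
    (ord : Subgroup G → ℤ) (hord : ∀ U : Subgroup G, ∃ m : (G → ℂ) → ℕ,
      IsDecomp (ind U (fun _ => (1 : ℂ))) m ∧
      meromorphicOrderAt (fun s => ∏ᶠ χ ∈ Irr G, L τ₀ χ s ^ m χ) c = ord U)
    (h : ∀ (H : Subgroup G) (X : Type) [Group X] (q : H →* X), Function.Surjective q →
      Prim X → ∃ Y : Subgroup X, Y.Normal ∧ Y ≠ ⊥ ∧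
        ord ((Y.comap q).map H.subtype) = ord (q.ker.map H.subtype))
    {V : Type} [AddCommGroup V] [Module E V] [FiniteDimensional E V] (ρ : Representation E G V) :
    Deligne L P c ρ.character := by
  classical
  have hA : HA (theta (ords (L τ₀) c) : G → ℂ) := ha_ords hζ hL hmon τ₀
  have hpr : ∀ U : Subgroup G, pr (theta (ords (L τ₀) c) : G → ℂ) (ind U (fun _ => (1 : ℂ)))
      = ord U := by
    intro U
    obtain ⟨m, hm, hmk⟩ := hord U
    obtain ⟨z, hz1, hz2⟩ := order_eq_pr hL τ₀ hm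
    rw [hz1] at hmk
    have h1 : z = ord U := by exact_mod_cast hmk
    rw [hz2, h1]
  refine bridge hζ hL hP hmon τ₀ (fun χ hχ => mem_sup_of ?_) ρ
  refine gtN (Nat.card G) G rfl _ hA (oldSec_of_orders hA ?_) χ hχ
  intro H X _ q hq hX
  obtain ⟨Y, hY1, hY2, hY3⟩ := h H X q hq hX
  exact ⟨Y, hY1, hY2, by rw [hpr, hpr, hY3]⟩

end Pool.Agent.N28.DL
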