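import Mathlib
import Pool.Agent.N28.DJ.Rig
import Pool.Agent.N28.DJ.Emb

/-!
# Motives with coefficients give Galois stable Heilbronn functions
-/

set_option autoImplicit false
set_option linter.unusedSectionVars false

namespace Pool.Agent.N28.DL

open Pool.Agent.H302R2 Pool.Agent.H302R3 Pool.Agent.H541R3.ART Pool.Agent.W446.AS Pool.Agent.R389
  Pool.Agent.H302R5 Pool.Agent.H302R6 Filter Topology

variable {G : Type} [Group G] [Finite G] {E : Type} [Field E]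
  {L : (E →+* ℂ) → (G → ℂ) → ℂ → ℂ} {P : (E →+* ℂ) → (G → ℂ) → ℂ} {c : ℂ}

/-- the vanishing of the L-value for one embedding -/
lemma nz_iff (hL : ∀ τ, ∀ χ ∈ Irr G, MeromorphicAt (L τ χ) c ∧ meromorphicOrderAt (L τ χ) c ≠ ⊤)
    (hP : ∀ τ, ∀ χ ∈ Irr G, P τ χ ≠ 0) {U : Subgroup G} {f : G → E} {e : E}
    (he : ∀ (τ : E →+* ℂ) (m : (G → ℂ) → ℕ), IsDecomp (fun g => τ (f g)) m →
      Tendsto (fun s => ∏ᶠ χ ∈ Irr G, L τ χ s ^ m χ) (𝓝[≠] c)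
      (𝓝 (τ e * ∏ᶠ χ ∈ Irr G, P τ χ ^ m χ))) (τ : E →+* ℂ) {ψ : U →* ℂˣ}
    (hf : (fun g => τ (f g)) = ind U (fun h => ((ψ h : ℂˣ) : ℂ))) :
    pr (theta (ords (L τ) c) : G → ℂ) (ind U (fun h => ((ψ h : ℂˣ) : ℂ))) = 0 ↔ e ≠ 0 := by
  classical
  obtain ⟨m, hm⟩ := ind_isDecomp U ψ
  have h2 := he τ m (by rw [hf]; exact hm)
  have h3 := order_prod (hL τ) (irrF G) subset_rfl (fun χ => (m χ : ℤ))
  have h4 : (fun s => ∏ᶠ χ ∈ Irr G, L τ χ s ^ m χ)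
      = fun z => ∏ χ ∈ irrF G, L τ χ z ^ ((m χ : ℕ) : ℤ) := by
    funext s
    rw [finprod_irr (fun χ => L τ χ s ^ m χ)]
    exact Finset.prod_congr rfl fun χ _ => by rw [zpow_natCast]
  rw [h4] at h2
  have hP' : ∏ᶠ χ ∈ Irr G, P τ χ ^ m χ ≠ 0 := by
    rw [finprod_irr (fun χ => P τ χ ^ m χ)]
    exact Finset.prod_ne_zero_iff.mpr fun χ hχ => pow_ne_zero _ (hP τ χ (mem_irrF.mp hχ))
  rw [pr_ords (m := fun χ => (m χ : ℤ)) (fun χ hχ => by rw [hm.pr hχ]; simp)]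
  constructor
  · intro h5
    have h6 : ∑ χ ∈ irrF G, (m χ : ℤ) * ords (L τ) c χ = 0 := by exact_mod_cast h5
    rw [h6] at h3
    obtain ⟨a, ha, hlim⟩ := (tendsto_ne_zero_iff_meromorphicOrderAt_eq_zero h3.1).mpr h3.2
    have h9 := tendsto_nhds_unique h2 hlim
    intro h0
    rw [h0, map_zero, zero_mul] at h9
    exact ha h9.symm
  · intro h5
    have h6 : τ e * ∏ᶠ χ ∈ Irr G, P τ χ ^ m χ ≠ 0 :=
      mul_ne_zero ((map_ne_zero τ).mpr h5) hP'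
    have h7 := (tendsto_ne_zero_iff_meromorphicOrderAt_eq_zero h3.1).mp ⟨_, h6, h2⟩
    rw [h3.2] at h7
    have h8 : ∑ χ ∈ irrF G, (m χ : ℤ) * ords (L τ) c χ = 0 := by exact_mod_cast h7
    rw [h8, Int.cast_zero]

/-- **Motives with coefficients in `F` give Galois stable Heilbronn functions.** -/
theorem gst_ordsJ {F : Type} [Field F] [Algebra F E] {ℓ : (F →+* ℂ) → (G → ℂ) → ℂ → ℂ} {ζ : E}
    (hζ : IsPrimitiveRoot ζ (Monoid.exponent G))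
    (hL : ∀ τ, ∀ χ ∈ Irr G, MeromorphicAt (ℓ τ χ) c ∧ meromorphicOrderAt (ℓ τ χ) c ≠ ⊤)
    (hP : ∀ τ, ∀ χ ∈ Irr G, P τ χ ≠ 0)
    (hmon : ∀ (U : Subgroup G) (ψ : U →* Eˣ),
      Deligne (fun τ => ℓ (τ.comp (algebraMap F E))) P c (ind U (fun u => ((ψ u : Eˣ) : E))))
    (τ₀ : E →+* ℂ) :
    GSt (JSet F τ₀ ζ) (theta (ords (ℓ (τ₀.comp (algebraMap F E))) c) : G → ℂ) := by
  classical
  rintro U ψ j ⟨τ, hτF, hτ⟩
  have hne : Monoid.exponent G ≠ 0 := Monoid.exponent_ne_zero_of_finite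
  have hne' : NeZero (Monoid.exponent G) := ⟨hne⟩
  obtain ⟨ψE, hψE⟩ := lift_char hζ τ₀ U ψ
  obtain ⟨e, he⟩ := hmon U ψE
  have h1 : (fun g => τ₀ (ind U (fun u => ((ψE u : Eˣ) : E)) g))
      = ind U (fun h => ((ψ h : ℂˣ) : ℂ)) := by
    funext g
    rw [ind_map]
    congr 1
    funext u
    exact hψE u
  have h2 : (fun g => τ (ind U (fun u => ((ψE u : Eˣ) : E)) g))
      = ind U (fun h => (((ψ ^ j) h : ℂˣ) : ℂ)) := by
    funext g
    rw [ind_map]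
    congr 1
    funext u
    have h3 : ((ψE u : Eˣ) : E) ^ Monoid.exponent G = 1 := by
      have h4 : u ^ Monoid.exponent G = 1 := by
        apply Subtype.ext
        rw [Subgroup.coe_pow, Monoid.pow_exponent_eq_one]
        rfl
      rw [← Units.val_pow_eq_pow_val, ← map_pow, h4, map_one, Units.val_one]
    obtain ⟨i, -, hi⟩ := hζ.eq_pow_of_pow_eq_one h3
    rw [MonoidHom.pow_apply, Units.val_pow_eq_pow_val, ← hψE u, ← hi, map_pow, map_pow, hτ,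
      ← pow_mul, ← pow_mul, mul_comm]
  have hL' : ∀ τ : E →+* ℂ, ∀ χ ∈ Irr G, MeromorphicAt (ℓ (τ.comp (algebraMap F E)) χ) c ∧
      meromorphicOrderAt (ℓ (τ.comp (algebraMap F E)) χ) c ≠ ⊤ := fun τ => hL _
  have a1 := nz_iff (L := fun τ => ℓ (τ.comp (algebraMap F E))) hL' hP he τ₀ h1
  have a2 := nz_iff (L := fun τ => ℓ (τ.comp (algebraMap F E))) hL' hP he τ h2
  rw [hτF] at a2
  rw [a1, a2]

end Pool.Agent.N28.DL
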