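import Mathlib
import Pool.Agent.N28.DJ.Bounds
import Pool.Agent.N28.DJ.Ord
import Pool.Agent.N28.DJ.NewMain

/-!
# Deligne's conjecture for arbitrary groups and few zeros
-/

set_option autoImplicit false
set_option linter.unusedSectionVars false

namespace Pool.Agent.N28.DL

open Pool.Agent.H302R2 Pool.Agent.H302R3 Pool.Agent.H541R3.ART Pool.Agent.W446.AS Pool.Agent.R389
  Pool.Agent.H302R5 Pool.Agent.H302R6 Filter Topology

variable {G : Type} [Group G] [Finite G]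

/-- holomorphic L-functions give characters -/
lemma genu_ords {l : (G → ℂ) → ℂ → ℂ} {c : ℂ}
    (h : ∀ χ ∈ Irr G, 0 ≤ meromorphicOrderAt (l χ) c)
    (h' : ∀ χ ∈ Irr G, meromorphicOrderAt (l χ) c ≠ ⊤) : Genu (theta (ords l c) : G → ℂ) := by
  classical
  refine genu_of_nat (theta_virt _) fun χ hχ => ?_
  have h1 : ∀ ψ ∈ Irr G, pr χ ψ = ((if ψ = χ then (1 : ℤ) else 0 : ℤ) : ℂ) := by
    intro ψ hψ
    by_cases h : ψ = χ
    · subst h
      rw [pr_self hψ]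
      simp
    · rw [pr_ne hχ hψ (Ne.symm h)]
      simp [h]
  rw [pr_ords (m := fun ψ => if ψ = χ then (1 : ℤ) else 0) h1]
  have h2 : 0 ≤ ords l c χ := by
    rw [ords]
    obtain ⟨z, hz⟩ := WithTop.ne_top_iff_exists.mp (h' χ hχ)
    have h3 := h χ hχ
    rw [← hz] at h3 ⊢
    rw [WithTop.untop₀_coe]
    exact_mod_cast h3
  obtain ⟨k, hk⟩ := Int.eq_ofNat_of_zero_le h2
  refine ⟨k, ?_⟩
  rw [Finset.sum_eq_single χ]
  · simp [hk]
  · intro ψ _ hne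
    simp [hne]
  · intro h
    exact absurd (mem_irrF.mpr hχ) h

variable {E : Type} [Field E] {P : (E →+* ℂ) → (G → ℂ) → ℂ} {c : ℂ}

/-- **Deligne's conjecture for arbitrary groups and few zeros.** -/
theorem main_bounds [NumberField E] {F : Type} [Field F] [Algebra F E]
    {ℓ : (F →+* ℂ) → (G → ℂ) → ℂ → ℂ} {ζ : E} (hζ : IsPrimitiveRoot ζ (Monoid.exponent G))
    (hL : ∀ τ, ∀ χ ∈ Irr G, MeromorphicAt (ℓ τ χ) c ∧ meromorphicOrderAt (ℓ τ χ) c ≠ ⊤)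
    (hpos : ∀ τ, ∀ χ ∈ Irr G, 0 ≤ meromorphicOrderAt (ℓ τ χ) c)
    (hP : ∀ τ, ∀ χ ∈ Irr G, P τ χ ≠ 0)
    (hmon : ∀ (U : Subgroup G) (ψ : U →* Eˣ),
      Deligne (fun τ => ℓ (τ.comp (algebraMap F E))) P c (ind U (fun u => ((ψ u : Eˣ) : E))))
    (τ₀ : E →+* ℂ) (ord : Subgroup G → ℤ) (hord : ∀ U : Subgroup G, ∃ m : (G → ℂ) → ℕ,
      IsDecomp (ind U (fun _ => (1 : ℂ))) m ∧
      meromorphicOrderAt (fun s => ∏ᶠ χ ∈ Irr G, ℓ (τ₀.comp (algebraMap F E)) χ s ^ m χ) c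
        = ord U)
    {sE sF : ℕ → ℕ} {sC k : ℕ}
    (hsE : ∀ p : ℕ, p.Prime → ord ⊥ ≤ ord (pgen p G) + sE p)
    (hsF : ∀ p : ℕ, p.Prime → ord ⊥ ≤ ord (derP p (⊤ : Subgroup G)) + sF p)
    (hsC : ord ⊥ ≤ ord (derivedSeries G k) + sC)
    (hF : ∀ (X : Type) [Group X] [Finite X], IsSec G X → Prim X →
      (∀ p : ℕ, p.Prime → p ∣ Nat.card X →
        Module.finrank F (CyclotomicField p F) ≤ sE p) →
      ∀ (E : Subgroup X) (p n : ℕ), Crit X E p n →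
        sF p < Module.finrank F (CyclotomicField
          (p ^ (Nat.card (Subgroup.center X)).factorization p) F) * p ^ n)
    (hC : ∀ (T : Type) [Group T] [Finite T], IsSec G T →
      (∀ p : ℕ, p.Prime → p ∣ Nat.card T →
        Module.finrank F (CyclotomicField p F) ≤ sE p) → QSimple T →
      ∀ χ ∈ Irr T, (∃ t, χ t ≠ 1) → ∀ d : ℕ, χ 1 = d → sC < d)
    {V : Type} [AddCommGroup V] [Module E V] [FiniteDimensional E V] (ρ : Representation E G V) :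
    Deligne (fun τ => ℓ (τ.comp (algebraMap F E))) P c ρ.character := by
  classical
  have hL' : ∀ τ : E →+* ℂ, ∀ χ ∈ Irr G, MeromorphicAt (ℓ (τ.comp (algebraMap F E)) χ) c ∧
      meromorphicOrderAt (ℓ (τ.comp (algebraMap F E)) χ) c ≠ ⊤ := fun τ => hL _
  have hθ : Genu (theta (ords (ℓ (τ₀.comp (algebraMap F E))) c) : G → ℂ) :=
    genu_ords (fun χ hχ => hpos _ χ hχ) (fun χ hχ => (hL _ χ hχ).2)
  have hG := gst_ordsJ (F := F) hζ hL hP hmon τ₀
  set θ : G → ℂ := theta (ords (ℓ (τ₀.comp (algebraMap F E))) c) with hθd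
  have hpr : ∀ U : Subgroup G, pr θ (ind U (fun _ => (1 : ℂ))) = ord U := by
    intro U
    obtain ⟨m, hm, hmk⟩ := hord U
    obtain ⟨z, hz1, hz2⟩ := order_eq_pr (L := fun τ => ℓ (τ.comp (algebraMap F E))) hL' τ₀ hm
    rw [hz1] at hmk
    have h1 : z = ord U := by exact_mod_cast hmk
    change pr (theta (ords (ℓ (τ₀.comp (algebraMap F E))) c) : G → ℂ) _ = _ at hz2
    rw [hθd, hz2, h1]
  have hone : θ 1 = ord ⊥ := by
    have h1 : inv (⊥ : Subgroup G) θ = θ := inv_of_const _ (fun g k hk => by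
      rw [Subgroup.mem_bot] at hk
      rw [hk, mul_one])
    rw [← hpr, ← inv_one_eq hθ.ha, h1]
  have hnew : ∀ (R : Subgroup G) (s : ℕ), ord ⊥ ≤ ord R + s →
      ∀ s' : ℕ, (θ - inv R θ) 1 = s' → s' ≤ s := by
    intro R s hs s' hs'
    rw [Pi.sub_apply, hone, inv_one_eq hθ.ha, hpr] at hs'
    have h1 : ord ⊥ - ord R = (s' : ℤ) := by exact_mod_cast hs'
    omega
  have hO : OldSec θ := oldSec_of_bounds hθ hG
    (fun p q hp hpq hq => exists_res Monoid.exponent_ne_zero_of_finite hζ τ₀ hp hpq hq)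
    (fun p hp => hnew _ _ (hsE p hp)) (fun p hp => hnew _ _ (hsF p hp)) (hnew _ _ hsC) hF hC
  exact bridge hζ hL' hP hmon τ₀ (fun χ hχ => mem_sup_of (gtN (Nat.card G) G rfl θ hθ.ha hO χ hχ)) ρ

end Pool.Agent.N28.DL
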