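import Mathlib
import Pool.Agent.N28.DJ.NewMain

/-!
# Deligne's conjecture when there are no new zeros in primitive extensions, concrete form
-/

set_option autoImplicit false
set_option linter.unusedSectionVars false

namespace Pool.Agent.N28.DL

open Pool.Agent.H302R2 Pool.Agent.H302R3 Pool.Agent.H541R3.ART Pool.Agent.W446.AS Pool.Agent.R389
  Pool.Agent.H302R5 Pool.Agent.H302R6 Filter Topology

lemma Prim.equiv {X Y : Type} [Group X] [Group Y] [Finite X] [Finite Y] (e : X ≃* Y)
    (h : Prim X) : Prim Y := by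
  obtain ⟨ψ, hψ, h1, h2, h3⟩ := h
  refine ⟨fun y => ψ (e.symm y), irr_comp (f := e.symm.toMonoidHom) e.symm.surjective hψ, ?_, ?_,
    ?_⟩
  · change ψ (e.symm 1) ≠ 1
    rw [map_one]
    exact h1
  · intro y hy
    change ψ (e.symm y) = ψ (e.symm 1) at hy
    rw [map_one] at hy
    have := h2 _ hy
    rw [← e.apply_symm_apply y, this, map_one]
  · intro U φ hU hφ heq
    let π' : U.comap e.toMonoidHom →* U :=
      { toFun := fun h => ⟨e.toMonoidHom h, h.2⟩
        map_one' := by apply Subtype.ext; simp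
        map_mul' := by intro a b; apply Subtype.ext; exact map_mul e.toMonoidHom _ _ }
    have hπ' : Function.Surjective π' := by
      rintro ⟨y, hy⟩
      refine ⟨⟨e.symm y, ?_⟩, ?_⟩
      · change e (e.symm y) ∈ U
        rw [e.apply_symm_apply]
        exact hy
      · apply Subtype.ext
        exact e.apply_symm_apply y
    refine h3 (U.comap e.toMonoidHom) (fun h => φ (π' h)) ?_ (irr_comp hπ' hφ) ?_
    · intro h4
      apply hU
      rw [eq_top_iff]
      intro y _
      have h5 : e.symm y ∈ U.comap e.toMonoidHom := by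
        rw [h4]
        exact Subgroup.mem_top _
      have h6 : e (e.symm y) ∈ U := h5
      rwa [e.apply_symm_apply] at h6
    · have h4 : ψ = fun x => (fun y => ψ (e.symm y)) (e.toMonoidHom x) := by
        funext x
        change ψ x = ψ (e.symm (e x))
        rw [e.symm_apply_apply]
      have h5 := ind_comap (π := e.toMonoidHom) e.surjective U φ
      rw [h4]
      refine Eq.trans ?_ h5
      funext x
      exact congrFun heq (e x)

/-- the concrete form of the condition -/
theorem conc {G : Type} [Group G] [Finite G] {ord : Subgroup G → ℤ}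
    (h : ∀ A H : Subgroup G, A ≤ H → ∀ [(A.subgroupOf H).Normal], Prim (H ⧸ A.subgroupOf H) →
      ∃ B : Subgroup G, A < B ∧ B ≤ H ∧ (B.subgroupOf H).Normal ∧ ord B = ord A) :
    ∀ (H : Subgroup G) (X : Type) [Group X] (q : H →* X), Function.Surjective q →
      Prim X → ∃ Y : Subgroup X, Y.Normal ∧ Y ≠ ⊥ ∧
        ord ((Y.comap q).map H.subtype) = ord (q.ker.map H.subtype) := by
  intro H X _ q hq hX
  have hfin : Finite X := Finite.of_surjective q hq
  let A : Subgroup G := q.ker.map H.subtype
  have hA : A.subgroupOf H = q.ker := by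
    ext x
    rw [Subgroup.mem_subgroupOf]
    constructor
    · rintro ⟨y, hy, hyx⟩
      have : y = x := Subtype.ext hyx
      rwa [← this]
    · intro hx
      exact ⟨x, hx, rfl⟩
  have hAH : A ≤ H := by
    rintro _ ⟨y, -, rfl⟩
    exact y.2
  have hAn : (A.subgroupOf H).Normal := by
    rw [hA]
    infer_instance
  let e0 : H ⧸ q.ker ≃* X := QuotientGroup.quotientKerEquivOfSurjective q hq
  let e : X ≃* H ⧸ A.subgroupOf H := e0.symm.trans (QuotientGroup.quotientMulEquivOfEq hA.symm)
  obtain ⟨B, hAB, hBH, hBn, hB⟩ := h A H hAH (hX.equiv e)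
  have hkB : q.ker ≤ B.subgroupOf H := by
    rw [← hA]
    exact Subgroup.comap_mono hAB.le
  have h1 : ((B.subgroupOf H).map q).comap q = B.subgroupOf H :=
    Subgroup.comap_map_eq_self hkB
  refine ⟨(B.subgroupOf H).map q, Subgroup.Normal.map hBn q hq, ?_, ?_⟩
  · intro h2
    apply hAB.not_ge
    intro b hb
    have h3 : q ⟨b, hBH hb⟩ ∈ (B.subgroupOf H).map q := ⟨⟨b, hBH hb⟩, hb, rfl⟩
    rw [h2, Subgroup.mem_bot] at h3
    exact ⟨⟨b, hBH hb⟩, h3, rfl⟩
  · rw [h1, Subgroup.subgroupOf_map_subtype, inf_eq_left.mpr hBH]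
    exact hB

end Pool.Agent.N28.DL
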